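import Pool.Agent.Lib.MP_cc0c1a_nt.Tri.Conv

set_option autoImplicit false

open Finset
open scoped Classical
open Pool.Agent.Results.MP_cc0c1a_nt.SyndeticPositions (T Y Y_mul nsmul_coe Avoid UU UU_open
  UU_nonempty avoid_torsion avoid_compact arc shows_of_arc exists_code fin_eq_dig Config IsFin
  Shows F dig)

namespace MPcc0Tri

/-- A point `y` of the circle with `Q y` not close to zero has an orbit point in `U`. -/
lemma hit {U : Set T} {Q M : ℕ} (hQ : 0 < Q) (hQE : ∀ p ∈ Avoid U, Q • p = 0)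
    (hM : ∀ y : T, (∀ a ≤ M, ∀ b ≤ M, (4 ^ a * 9 ^ b) • y ∉ U) →
      ∃ p ∈ Avoid U, ‖y - p‖ < 1 / (16 * (Q : ℝ))) {y : T} (hy : 1 / 16 ≤ ‖Q • y‖) :
    ∃ a ≤ M, ∃ b ≤ M, (4 ^ a * 9 ^ b) • y ∈ U := by
  by_contra hcon
  push Not at hcon
  obtain ⟨p, hp, hlt⟩ := hM y hcon
  have hQ' : (0 : ℝ) < Q := by exact_mod_cast hQ
  have h1 : Q • y = Q • (y - p) := by rw [nsmul_sub, hQE p hp, sub_zero]
  have h2 : ‖Q • (y - p)‖ ≤ Q * ‖y - p‖ := norm_nsmul_le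
  rw [h1] at hy
  have h3 : (Q : ℝ) * ‖y - p‖ < Q * (1 / (16 * Q)) := mul_lt_mul_of_pos_left hlt hQ'
  have h4 : (Q : ℝ) * (1 / (16 * Q)) = 1 / 16 := by field_simp
  linarith

theorem core (ℓ : ℕ) : ∃ c : ℝ, 0 < c ∧ ∃ H₀ : ℕ, ∀ x : Config, IsFin x → x ≠ 0 →
    ∃ N₀ : ℕ, ∀ n₀ H : ℕ, N₀ ≤ n₀ → H₀ ≤ H → ∀ w : Fin ℓ → Fin 6,
      ∃ S : Finset (ℕ × ℤ), c * (H : ℝ) ^ (7 / 5 : ℝ) ≤ (S.card : ℝ) ∧
        ∀ p ∈ S, n₀ ≤ p.1 ∧ p.1 < n₀ + H ∧ |(p.1 : ℤ) - p.2| ≤ N₀ + H ∧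
          Shows (F^[p.1] x) p.2 w := by
  obtain ⟨J, hJ⟩ := UU_nonempty (L := 6 ^ ℓ) (by positivity)
  have hUo : IsOpen (UU (6 ^ ℓ) J) := UU_open _ _
  obtain ⟨Q, hQ, hQE⟩ := avoid_torsion hUo hJ
  obtain ⟨M, hM⟩ := avoid_compact hUo (ε := 1 / (16 * (Q : ℝ))) (by positivity)
  obtain ⟨w0, hw0, c0, hc0, H1, hgeo⟩ := Faces.geo th_pos
  set K : ℕ := ⌈th * w0⌉₊ + 1 with hK
  set C : ℕ := K + 2 + 2 * (M + J) with hC
  refine ⟨c0 / (4 ^ (7 / 5 : ℝ) * (2 * C + 1) ^ 2), by positivity,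
    2 * H1 + 8 * (M + J) + 4 * K + 4, ?_⟩
  intro x hx hne
  obtain ⟨A, r, rfl⟩ := fin_eq_dig hx
  have hA : 0 < A := by
    rcases Nat.eq_zero_or_pos A with h | h
    · exfalso
      apply hne
      subst h
      funext i
      apply Fin.ext
      unfold dig
      simp
    · exact h
  have hξ : (0 : ℝ) < (A : ℝ) / 6 ^ r := by positivity
  obtain ⟨v, g0, hg0, hQN⟩ := Nat.exists_eq_two_pow_mul_odd (n := Q * A) (by positivity)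
  refine ⟨v + r + K + 1 + 2 * (M + J), ?_⟩
  intro n₀ H hn₀ hH w
  obtain ⟨W, hWlt, hW⟩ := exists_code w
  set n1 : ℕ := n₀ + M + J with hn1
  set b0 : ℕ := 2 * n1 - v with hb0
  have hb0' : b0 + v = 2 * n1 := by omega
  set H' : ℕ := H / 2 with hH'
  set g : ℕ := g0 * 3 ^ b0 with hg
  have hgodd : Odd g := hg0.mul (Odd.pow (by decide))
  obtain ⟨Fc, hOk, hcov⟩ := exists_faces g hgodd w0 hw0 ⌊th * H'⌋₊ H'
  have hcount := hgeo H' (by omega) Fc hOk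
  have hthH : ⌊th * H'⌋₊ ≤ 2 * H' := by
    have h1 : ((⌊th * H'⌋₊ : ℕ) : ℝ) ≤ th * H' := Nat.floor_le (by have := th_pos; positivity)
    have h2 : th * H' ≤ 2 * H' := by
      have := th_lt
      have h3 : (0 : ℝ) ≤ H' := Nat.cast_nonneg _
      nlinarith
    have h3 : ((⌊th * H'⌋₊ : ℕ) : ℝ) ≤ ((2 * H' : ℕ) : ℝ) := by push_cast; linarith
    exact_mod_cast h3
  have hpt : ∀ p ∈ Fc.Unc th w0 ⌊th * H'⌋₊ H', ∃ q : ℕ × ℤ,
      (n₀ ≤ q.1 ∧ q.1 < n₀ + H ∧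
        |(q.1 : ℤ) - q.2| ≤ ((v + r + K + 1 + 2 * (M + J) : ℕ) : ℤ) + H ∧
        Shows (F^[q.1] (dig ((A : ℝ) / 6 ^ r))) q.2 w) ∧
      |(p.1 : ℤ) - ((q.1 : ℤ) - q.2 + 1 + r - v)| ≤ C ∧
      |(p.2 : ℤ) - ((q.1 : ℤ) + q.2 - (2 * n1 - v + 1 + r))| ≤ C := by
    intro p hp
    obtain ⟨a', h1, h2, h3⟩ := hcov p hp
    unfold Faces.Unc reg at hp
    rw [mem_filter, mem_product, mem_Ioc, mem_range] at hp
    obtain ⟨⟨⟨hp1, hp2⟩, hp3⟩, _⟩ := hp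
    have h2' : a' ≤ p.1 + K := by
      have h4 := Nat.le_ceil (th * w0)
      have h5 : (a' : ℝ) ≤ ((p.1 + K : ℕ) : ℝ) := by
        rw [hK]
        push_cast
        linarith
      exact_mod_cast h5
    obtain ⟨a1, b1, ha1, ha1', hb1, hb1', hev, hfar⟩ := parity_fix (by omega) h3
    obtain ⟨k, hk⟩ := hev
    have hcell := cell_eq (r := r) (v := v) (b0 := b0) (a := a1) (b := b1) hQN (n := n1 + k)
      (j := (n1 : ℤ) - v + 1 + r + b1 - k) (by omega) (by omega)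
    rw [← hg] at hcell
    rw [← hcell] at hfar
    obtain ⟨a2, ha2, b2, hb2, hU⟩ := hit hQ hQE hM hfar
    rw [Y_mul _ _ _ (by omega)] at hU
    obtain ⟨a3, ha3, hU'⟩ := hU W hWlt
    rw [Y_mul _ _ _ (by omega)] at hU'
    have hsh := shows_of_arc hW hWlt hξ hU'
    refine ⟨(_, _), ⟨?_, ?_, ?_, hsh⟩, ?_, ?_⟩
    · simp only; omega
    · simp only; omega
    · rw [abs_le]; simp only; push_cast; omega
    · rw [abs_le]; simp only; push_cast; omega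
    · rw [abs_le]; simp only; push_cast; omega
  choose! f hf1 hf2 hf3 using hpt
  refine ⟨(Fc.Unc th w0 ⌊th * H'⌋₊ H').image f, ?_, ?_⟩
  · have h1 := count_fibre (Fc.Unc th w0 ⌊th * H'⌋₊ H') C f
      (fun q => (q.1 : ℤ) - q.2 + 1 + r - v) (fun q => (q.1 : ℤ) + q.2 - (2 * n1 - v + 1 + r))
      (fun p hp => ⟨hf2 p hp, hf3 p hp⟩)
    have h2 : ((Fc.Unc th w0 ⌊th * H'⌋₊ H').card : ℝ) ≤ (2 * C + 1) ^ 2 *
        (((Fc.Unc th w0 ⌊th * H'⌋₊ H').image f).card : ℝ) := by exact_mod_cast h1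
    have h3 : (H : ℝ) / 4 ≤ H' := by
      have : H ≤ 4 * H' := by omega
      have h4 : (H : ℝ) ≤ ((4 * H' : ℕ) : ℝ) := by exact_mod_cast this
      push_cast at h4
      linarith
    have h4 : ((H : ℝ) / 4) ^ (7 / 5 : ℝ) ≤ (H' : ℝ) ^ (7 / 5 : ℝ) :=
      Real.rpow_le_rpow (by positivity) h3 (by norm_num)
    rw [Real.div_rpow (by positivity) (by norm_num)] at h4
    have h5 : (0 : ℝ) < (2 * C + 1) ^ 2 := by positivity
    have h6 : (0 : ℝ) < 4 ^ (7 / 5 : ℝ) := by positivity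
    have h7 : c0 / (4 ^ (7 / 5 : ℝ) * (2 * C + 1) ^ 2) * (H : ℝ) ^ (7 / 5 : ℝ) =
        c0 * ((H : ℝ) ^ (7 / 5 : ℝ) / 4 ^ (7 / 5 : ℝ)) / (2 * C + 1) ^ 2 := by
      field_simp
    rw [h7, div_le_iff₀ h5]
    have h8 := mul_le_mul_of_nonneg_left h4 hc0.le
    linarith
  · intro q hq
    rw [mem_image] at hq
    obtain ⟨p, hp, rfl⟩ := hq
    exact hf1 p hp

end MPcc0Tri
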