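import Pool.Agent.Lib.MP_cc0c1a_nt.Tri.Sum

set_option autoImplicit false

open Finset
open scoped Classical

namespace MPcc0Tri

/-- `γ 3^b / 2^a` is an integer. -/
def IntAt (γ : ℚ) (a b : ℕ) : Prop := ∃ k : ℤ, γ * 3 ^ b = k * 2 ^ a

lemma IntAt.mono {γ : ℚ} {a b a' b' : ℕ} (h : IntAt γ a b) (ha : a' ≤ a) (hb : b ≤ b') :
    IntAt γ a' b' := by
  obtain ⟨k, hk⟩ := h
  refine ⟨k * 2 ^ (a - a') * 3 ^ (b' - b), ?_⟩
  have h1 : (3 : ℚ) ^ b' = 3 ^ b * 3 ^ (b' - b) := by rw [← pow_add]; congr 1; omega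
  have h2 : (2 : ℚ) ^ a = 2 ^ (a - a') * 2 ^ a' := by rw [← pow_add]; congr 1; omega
  rw [h1, ← mul_assoc, hk, h2]
  push_cast
  ring

lemma exists_data (cap : ℕ) (γ : ℚ) (h : ∃ b, IntAt γ 0 b) : ∃ s L : ℕ,
    (∀ a b, s ≤ b → a ≤ L → IntAt γ a b) ∧
    (∀ a b, IntAt γ a b → s ≤ b ∧ (γ ≠ 0 → a ≤ L)) ∧ (γ = 0 → L = cap) := by
  by_cases h0 : γ = 0
  · subst h0
    refine ⟨0, cap, fun a b _ _ => ⟨0, by simp⟩, fun a b _ => ⟨Nat.zero_le _, fun h => absurd rfl h⟩,
      fun _ => rfl⟩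
  · obtain ⟨k, hk⟩ := Nat.find_spec h
    set s := Nat.find h with hs
    have hk0 : k ≠ 0 := by
      rintro rfl
      have : γ * 3 ^ s = 0 := by simpa using hk
      rcases mul_eq_zero.1 this with h1 | h1
      · exact h0 h1
      · exact absurd h1 (by positivity)
    refine ⟨s, padicValInt 2 k, ?_, ?_, fun h => absurd h h0⟩
    · intro a b hb ha
      obtain ⟨k', hk'⟩ := (padicValInt_dvd_iff (p := 2) a k).2 (Or.inr ha)
      refine IntAt.mono (a := a) (b := s) ⟨k', ?_⟩ le_rfl hb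
      rw [hk, hk']
      push_cast
      ring
    · intro a b hab
      have hsb : s ≤ b := Nat.find_min' h (hab.mono (Nat.zero_le _) le_rfl)
      refine ⟨hsb, fun _ => ?_⟩
      obtain ⟨k', hk'⟩ := hab
      have h1 : k * 3 ^ (b - s) = k' * 2 ^ a := by
        have h2 : (3 : ℚ) ^ b = 3 ^ s * 3 ^ (b - s) := by rw [← pow_add]; congr 1; omega
        rw [h2, ← mul_assoc, hk] at hk'
        have : ((k * 3 ^ (b - s) : ℤ) : ℚ) = ((k' * 2 ^ a : ℤ) : ℚ) := by
          push_cast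
          linarith
        exact_mod_cast this
      have h2 : (2 : ℤ) ^ a ∣ k := by
        have h3 : (2 : ℤ) ^ a ∣ k * 3 ^ (b - s) := ⟨k', by rw [h1]; ring⟩
        have h4 : IsCoprime ((2 : ℤ) ^ a) ((3 : ℤ) ^ (b - s)) := by
          apply IsCoprime.pow
          exact ⟨-1, 1, by norm_num⟩
        exact h4.dvd_of_dvd_mul_right h3
      have h3 := (padicValInt_dvd_iff (p := 2) a k).1 (by exact_mod_cast h2)
      rcases h3 with h3 | h3
      · exact absurd h3 hk0
      · exact h3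

/-- The slope. -/
noncomputable def th : ℝ := Real.logb 2 3

lemma th_pos : 0 < th := Real.logb_pos (by norm_num) (by norm_num)

lemma th_lt : th < 2 := by
  unfold th
  rw [Real.logb_lt_iff_lt_rpow (by norm_num) (by norm_num)]
  norm_num

lemma logb_iff {x : ℝ} (hx : 0 < x) (a b : ℕ) :
    Real.logb 2 x + th * b < a ↔ x * 3 ^ b < 2 ^ a := by
  have h1 : Real.logb 2 x + th * b = Real.logb 2 (x * 3 ^ b) := by
    rw [Real.logb_mul hx.ne' (by positivity), Real.logb_pow]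
    unfold th
    ring
  rw [h1, Real.logb_lt_iff_lt_rpow (by norm_num) (by positivity), Real.rpow_natCast]

/-- The cell `(a, b)` is close to an integer. -/
def Sm (g a b : ℕ) : Prop := ∃ m : ℤ, |(g : ℝ) * 3 ^ b / 2 ^ a - m| < 1 / 8

lemma close_iff {g a b : ℕ} {γ : ℚ} {k : ℤ} (hk : γ * 3 ^ b = k * 2 ^ a) :
    |(g : ℝ) * 3 ^ b / 2 ^ a - k| < 1 / 8 ↔ |(g : ℝ) - γ| * 8 * 3 ^ b < 2 ^ a := by
  have hk' : (γ : ℝ) * 3 ^ b = k * 2 ^ a := by exact_mod_cast hk
  have h2 : (0 : ℝ) < 2 ^ a := by positivity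
  have h3 : (0 : ℝ) < 3 ^ b := by positivity
  have h1 : (g : ℝ) * 3 ^ b / 2 ^ a - k = ((g : ℝ) - γ) * 3 ^ b / 2 ^ a := by
    field_simp
    linarith
  rw [h1, abs_div, abs_mul, abs_of_pos h2, abs_of_pos h3, div_lt_iff₀ h2]
  constructor <;> intro h <;> linarith

theorem exists_faces (g : ℕ) (hg : Odd g) (w : ℝ) (hw : 0 < w) (A H : ℕ) : ∃ F : Faces ℚ,
    F.Ok th ∧ ∀ p ∈ F.Unc th w A H, ∃ a' : ℕ, p.1 ≤ a' ∧ (a' : ℝ) ≤ p.1 + th * w + 1 ∧
      ¬ Sm g a' p.2 := by
  have hg0 : 0 < g := hg.pos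
  have hg0' : (1 : ℝ) ≤ g := by exact_mod_cast hg0
  set cap : ℕ := ⌈Real.logb 2 (g * 8) + th * w⌉₊ + A with hcap
  have hdata : ∀ γ : ℚ, ∃ s L : ℕ, (∃ b, IntAt γ 0 b) →
      ((∀ a b, s ≤ b → a ≤ L → IntAt γ a b) ∧
      (∀ a b, IntAt γ a b → s ≤ b ∧ (γ ≠ 0 → a ≤ L)) ∧ (γ = 0 → L = cap)) := by
    intro γ
    by_cases h : ∃ b, IntAt γ 0 b
    · obtain ⟨s, L, h1⟩ := exists_data cap γ h
      exact ⟨s, L, fun _ => h1⟩
    · exact ⟨0, 0, fun h' => absurd h' h⟩
  choose s L hsL using hdata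
  set gam : ℕ × ℕ → ℚ := fun p => (round ((g : ℝ) * 3 ^ p.2 / 2 ^ p.1) : ℤ) * 2 ^ p.1 / 3 ^ p.2
    with hgam
  have hgamInt : ∀ p, gam p * 3 ^ p.2 = (round ((g : ℝ) * 3 ^ p.2 / 2 ^ p.1) : ℤ) * 2 ^ p.1 := by
    intro p
    simp only [hgam]
    have : (3 : ℚ) ^ p.2 ≠ 0 := by positivity
    field_simp
  set F : Faces ℚ := ⟨((reg A H).filter (fun p => Sm g p.1 p.2)).image gam, L, s,
    fun γ => Real.logb 2 (|(g : ℝ) - γ| * 8)⟩ with hF
  have hFI : ∀ γ ∈ F.I, (∃ b, IntAt γ 0 b) ∧ γ ≠ g := by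
    intro γ hγ
    simp only [hF, mem_image, mem_filter] at hγ
    obtain ⟨p, ⟨hp, hsm⟩, rfl⟩ := hγ
    have hInt : IntAt (gam p) p.1 p.2 := ⟨_, hgamInt p⟩
    refine ⟨⟨p.2, hInt.mono (Nat.zero_le _) le_rfl⟩, ?_⟩
    intro hgg
    rw [hgg] at hInt
    obtain ⟨k, hk⟩ := hInt
    unfold reg at hp
    rw [mem_product, mem_Ioc] at hp
    have hodd : Odd (g * 3 ^ p.2) := hg.mul (Odd.pow (by decide))
    have h1 : ((g * 3 ^ p.2 : ℕ) : ℤ) = k * 2 ^ p.1 := by
      have : (((g * 3 ^ p.2 : ℕ) : ℤ) : ℚ) = ((k * 2 ^ p.1 : ℤ) : ℚ) := by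
        push_cast
        exact hk
      exact_mod_cast this
    have h2 : Even ((g * 3 ^ p.2 : ℕ) : ℤ) := by
      rw [h1]
      apply Even.mul_left
      exact Even.pow_of_ne_zero (by decide) (by omega)
    have h3 : Even (g * 3 ^ p.2) := by exact_mod_cast h2
    exact (Nat.not_even_iff_odd.2 hodd) h3
  have hpos : ∀ γ : ℚ, γ ≠ g → 0 < |(g : ℝ) - γ| * 8 := by
    intro γ hγ
    have : (g : ℝ) - γ ≠ 0 := by
      rw [sub_ne_zero]
      intro h
      apply hγ
      exact_mod_cast h.symm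
    positivity
  -- two integral close cells agree
  have huniq : ∀ γ γ' : ℚ, ∀ a b : ℕ, IntAt γ a b → IntAt γ' a b →
      |(g : ℝ) - γ| * 8 * 3 ^ b < 2 ^ a → |(g : ℝ) - γ'| * 8 * 3 ^ b < 2 ^ a → γ = γ' := by
    rintro γ γ' a b ⟨k, hk⟩ ⟨k', hk'⟩ h h'
    rw [← close_iff hk] at h
    rw [← close_iff hk'] at h'
    have h1 : |((k - k' : ℤ) : ℝ)| < 1 := by
      push_cast
      have : (k : ℝ) - k' = ((g : ℝ) * 3 ^ b / 2 ^ a - k') - ((g : ℝ) * 3 ^ b / 2 ^ a - k) := by ring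
      rw [this]
      refine lt_of_le_of_lt (abs_sub _ _) ?_
      linarith
    have h2 : k = k' := by
      have h3 : |k - k'| < 1 := by exact_mod_cast h1
      rw [Int.abs_lt_one_iff] at h3
      omega
    rw [h2, ← hk'] at hk
    exact mul_right_cancel₀ (by positivity) hk
  have hrho : ∀ γ ∈ F.I, ∀ a b : ℕ, (F.ρ γ + th * b < a ↔ |(g : ℝ) - γ| * 8 * 3 ^ b < 2 ^ a) := by
    intro γ hγ a b
    exact logb_iff (hpos γ (hFI γ hγ).2) a b
  refine ⟨F, ⟨?_, ?_⟩, ?_⟩
  · -- disjointness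
    have main : ∀ i ∈ F.I, ∀ j ∈ F.I, i ≠ j → ∀ b, F.Alive th i b → F.Alive th j b →
        F.L i ≤ F.L j → (F.L i : ℝ) ≤ F.ρ j + th * b := by
      intro i hi j hj hij b hai haj hL
      by_contra hcon
      push Not at hcon
      have h1 := (hrho j hj (F.L i) b).1 hcon
      have h2 := (hrho i hi (F.L i) b).1 hai.2
      have hi' := (hsL i (hFI i hi).1).1 (F.L i) b hai.1 le_rfl
      have hj' := (hsL j (hFI j hj).1).1 (F.L i) b haj.1 hL
      exact hij (huniq i j _ b hi' hj' h2 h1)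
    intro i hi j hj hij b hai haj
    rcases le_total (F.L i) (F.L j) with h | h
    · exact Or.inl (main i hi j hj hij b hai haj h)
    · exact Or.inr (main j hj i hi hij.symm b haj hai h)
  · -- nonnegativity
    intro i hi b hai
    by_contra hcon
    push Not at hcon
    have h1 := (hrho i hi 0 b).1 (by simpa using hcon)
    obtain ⟨k, hk⟩ := (hsL i (hFI i hi).1).1 0 b hai.1 (Nat.zero_le _)
    rw [← close_iff hk] at h1
    have h2 : |(((g * 3 ^ b : ℕ) : ℤ) - k : ℤ)| < 1 := by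
      have : ((|(((g * 3 ^ b : ℕ) : ℤ) - k : ℤ)| : ℤ) : ℝ) < 1 := by
        push_cast
        simp only [pow_zero, div_one] at h1
        linarith
      exact_mod_cast this
    rw [Int.abs_lt_one_iff] at h2
    have h3 : k = ((g * 3 ^ b : ℕ) : ℤ) := by omega
    rw [h3] at hk
    push_cast at hk
    simp only [pow_zero, mul_one] at hk
    exact (hFI i hi).2 (mul_right_cancel₀ (by positivity) hk)
  · -- uncovered cells
    rintro ⟨a, b⟩ hp
    unfold Faces.Unc at hp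
    rw [mem_filter] at hp
    obtain ⟨hreg, hunc⟩ := hp
    simp only at hunc ⊢
    by_cases hsm : Sm g a b
    · set γ := gam (a, b) with hγ
      have hγI : γ ∈ F.I := by
        simp only [hF, mem_image, mem_filter]
        exact ⟨(a, b), ⟨hreg, hsm⟩, rfl⟩
      have hInt : IntAt γ a b := ⟨_, hgamInt (a, b)⟩
      obtain ⟨p1, p2, p3⟩ := hsL γ (hFI γ hγI).1
      have hcl : |(g : ℝ) - γ| * 8 * 3 ^ b < 2 ^ a := by
        rw [← close_iff (hgamInt (a, b))]
        obtain ⟨m, hm⟩ := hsm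
        exact lt_of_le_of_lt (round_le _ _) hm
      have hsb := (p2 a b hInt).1
      have hρ := (hrho γ hγI a b).2 hcl
      have h0 : γ ≠ 0 := by
        intro h0
        have hL : L γ = cap := p3 h0
        have hs0 : s γ = 0 := by
          have := (p2 0 0 (by rw [h0]; exact ⟨0, by simp⟩)).1
          omega
        refine hunc γ (mem_filter.2 ⟨hγI, ?_⟩) ⟨hsb, hρ, ?_⟩
        · show w ≤ ((L γ : ℝ) - Real.logb 2 (|(g : ℝ) - γ| * 8)) / th - s γ
          rw [hL, hs0, h0]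
          have h1 : |(g : ℝ) - ((0 : ℚ) : ℝ)| = g := by
            rw [Rat.cast_zero, sub_zero, abs_of_pos (by linarith)]
          rw [h1, Nat.cast_zero, sub_zero, le_div_iff₀ th_pos, hcap]
          have h2 := Nat.le_ceil (Real.logb 2 ((g : ℝ) * 8) + th * w)
          push_cast
          have h3 : (0 : ℝ) ≤ A := Nat.cast_nonneg A
          linarith
        · show a ≤ L γ
          rw [hL, hcap]
          unfold reg at hreg
          rw [mem_product, mem_Ioc] at hreg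
          have := hreg.1.2
          simp only at this
          omega
      have hlam : F.lam th γ < w := by
        by_contra hcon
        push Not at hcon
        exact hunc γ (mem_filter.2 ⟨hγI, hcon⟩) ⟨hsb, hρ, (p2 a b hInt).2 h0⟩
      have haL := (p2 a b hInt).2 h0
      refine ⟨L γ + 1, by omega, ?_, ?_⟩
      · have h1 : (L γ : ℝ) = F.ρ γ + th * s γ + th * F.lam th γ := by
          show (L γ : ℝ) = F.ρ γ + th * s γ + th * (((L γ : ℝ) - F.ρ γ) / th - s γ)
          have := th_pos.ne'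
          field_simp
          ring
        have h2 : th * s γ ≤ th * b := by
          have h3 : (s γ : ℝ) ≤ b := by exact_mod_cast hsb
          have := th_pos.le
          gcongr
        have h3 : th * F.lam th γ < th * w := mul_lt_mul_of_pos_left hlam th_pos
        push_cast
        linarith
      · rintro ⟨m, hm⟩
        obtain ⟨k, hk⟩ := p1 (L γ) b hsb le_rfl
        have h1 : F.ρ γ + th * b < (L γ : ℕ) := by
          have : (a : ℝ) ≤ L γ := by exact_mod_cast haL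
          linarith
        have h2 := (hrho γ hγI (L γ) b).1 h1
        rw [← close_iff hk] at h2
        have h3 : (g : ℝ) * 3 ^ b / 2 ^ (L γ) = 2 * ((g : ℝ) * 3 ^ b / 2 ^ (L γ + 1)) := by
          rw [pow_succ]
          field_simp
        rw [h3] at h2
        have h4 : |((2 * m - k : ℤ) : ℝ)| < 1 := by
          push_cast
          have h5 : 2 * (m : ℝ) - k = (2 * ((g : ℝ) * 3 ^ b / 2 ^ (L γ + 1)) - k) -
              2 * ((g : ℝ) * 3 ^ b / 2 ^ (L γ + 1) - m) := by ring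
          rw [h5]
          refine lt_of_le_of_lt (abs_sub _ _) ?_
          rw [abs_mul, abs_two]
          linarith
        have h5 : k = 2 * m := by
          have h6 : |2 * m - k| < 1 := by exact_mod_cast h4
          rw [Int.abs_lt_one_iff] at h6
          omega
        have h6 : IntAt γ (L γ + 1) b := ⟨m, by rw [hk, h5, pow_succ]; push_cast; ring⟩
        have := (p2 _ _ h6).2 h0
        omega
    · exact ⟨a, le_rfl, by have := mul_pos th_pos hw; linarith, hsm⟩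

end MPcc0Tri
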