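import Pool.Agent.Lib.MP_cc0c1a_nt.Tri.Arith
import Pool.Agent.Lib.MP_cc0c1a_nt.Superseded.SyndeticPositions

set_option autoImplicit false

open Finset
open scoped Classical
open Pool.Agent.Results.MP_cc0c1a_nt.SyndeticPositions (T Y Y_mul nsmul_coe Avoid UU UU_open
  UU_nonempty avoid_torsion avoid_compact arc shows_of_arc exists_code fin_eq_dig Config IsFin
  Shows F dig)

namespace MPcc0Tri

/-- The point of the array attached to a cell. -/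
lemma QY_eq {N r Q : ℕ} {n : ℕ} {j : ℤ} {t m : ℕ}
    (ht : (t : ℤ) = n + j - 1 - r) (hm : (m : ℤ) = n + 1 + r - j) :
    Q • Y ((N : ℝ) / 6 ^ r) n j = ((((Q * N * 3 ^ t : ℕ) : ℝ) / 2 ^ m : ℝ) : T) := by
  unfold Y
  rw [nsmul_coe]
  congr 1
  have h6 : (6 : ℝ) ^ (j - 1) = 3 ^ (j - 1) * 2 ^ (j - 1) := by
    rw [← mul_zpow]; norm_num
  have h6' : (6 : ℝ) ^ r = 3 ^ (r : ℤ) * 2 ^ (r : ℤ) := by
    rw [zpow_natCast, zpow_natCast, ← mul_pow]; norm_num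
  have h32 : (3 / 2 : ℝ) ^ n = 3 ^ (n : ℤ) / 2 ^ (n : ℤ) := by
    rw [zpow_natCast, zpow_natCast, div_pow]
  have ht' : (3 : ℝ) ^ t = 3 ^ (n : ℤ) * 3 ^ (j - 1) / 3 ^ (r : ℤ) := by
    rw [← zpow_natCast (3 : ℝ) t, ht, ← zpow_add₀ (by norm_num : (3 : ℝ) ≠ 0),
      ← zpow_sub₀ (by norm_num : (3 : ℝ) ≠ 0)]
    congr 1
    ring
  have hm' : (2 : ℝ) ^ m = 2 ^ (n : ℤ) * 2 ^ (r : ℤ) / 2 ^ (j - 1) := by
    rw [← zpow_natCast (2 : ℝ) m, hm, ← zpow_add₀ (by norm_num : (2 : ℝ) ≠ 0),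
      ← zpow_sub₀ (by norm_num : (2 : ℝ) ≠ 0)]
    congr 1
    ring
  push_cast
  rw [ht', hm', h6, h6', h32]
  have a1 : (3 : ℝ) ^ (r : ℤ) ≠ 0 := by positivity
  have a2 : (2 : ℝ) ^ (r : ℤ) ≠ 0 := by positivity
  have a3 : (2 : ℝ) ^ (n : ℤ) ≠ 0 := by positivity
  have a4 : (2 : ℝ) ^ (j - 1) ≠ 0 := by positivity
  field_simp

lemma cell_eq {N r Q v g0 b0 a b : ℕ} (hQN : Q * N = 2 ^ v * g0) {n : ℕ} {j : ℤ}
    (hn : 2 * n = a + v + b + b0) (hj : 2 * (j - 1 - r) = (b : ℤ) + b0 - a - v) :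
    Q • Y ((N : ℝ) / 6 ^ r) n j = ((((g0 * 3 ^ b0 : ℕ) : ℝ) * 3 ^ b / 2 ^ a : ℝ) : T) := by
  rw [QY_eq (t := b + b0) (m := a + v) (by push_cast; omega) (by push_cast; omega), hQN]
  congr 1
  rw [pow_add, pow_add]
  push_cast
  have a1 : (2 : ℝ) ^ v ≠ 0 := by positivity
  have a2 : (2 : ℝ) ^ a ≠ 0 := by positivity
  field_simp

lemma norm_of_not_sm {g a b : ℕ} (h : ¬ Sm g a b) :
    1 / 8 ≤ ‖(((g : ℝ) * 3 ^ b / 2 ^ a : ℝ) : T)‖ := by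
  rw [UnitAddCircle.norm_eq]
  by_contra hcon
  push Not at hcon
  exact h ⟨round ((g : ℝ) * 3 ^ b / 2 ^ a), hcon⟩

/-- A cell of the right parity near a cell which is not small. -/
lemma parity_fix {g a b : ℕ} (ha : 0 < a) (h : ¬ Sm g a b) : ∃ a1 b1 : ℕ, a1 ≤ a ∧ a ≤ a1 + 1 ∧
    b ≤ b1 ∧ b1 ≤ b + 1 ∧ Even (a1 + b1) ∧ 1 / 16 ≤ ‖(((g : ℝ) * 3 ^ b1 / 2 ^ a1 : ℝ) : T)‖ := by
  have h1 := norm_of_not_sm h
  rcases Nat.even_or_odd (a + b) with he | ho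
  · exact ⟨a, b, le_rfl, by omega, le_rfl, by omega, he, by linarith⟩
  · set z : ℝ := (g : ℝ) * 3 ^ b / 2 ^ a with hz
    have e2 : ((g : ℝ) * 3 ^ b / 2 ^ (a - 1) : ℝ) = 2 * z := by
      obtain ⟨a', rfl⟩ : ∃ a', a = a' + 1 := ⟨a - 1, by omega⟩
      rw [hz, Nat.add_sub_cancel, pow_succ]
      field_simp
    have e3 : ((g : ℝ) * 3 ^ (b + 1) / 2 ^ a : ℝ) = 3 * z := by
      rw [hz, pow_succ]
      ring
    have h2 : ‖(z : T)‖ ≤ ‖((3 * z : ℝ) : T)‖ + ‖((2 * z : ℝ) : T)‖ := by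
      have h3 : (z : T) = ((3 * z : ℝ) : T) - ((2 * z : ℝ) : T) := by
        rw [← AddCircle.coe_sub]
        congr 1
        ring
      calc ‖(z : T)‖ = ‖((3 * z : ℝ) : T) - ((2 * z : ℝ) : T)‖ := by rw [← h3]
        _ ≤ _ := norm_sub_le _ _
    rcases le_or_gt (1 / 16) ‖((2 * z : ℝ) : T)‖ with h3 | h3
    · refine ⟨a - 1, b, by omega, by omega, le_rfl, by omega, ?_, ?_⟩
      · rw [Nat.even_iff]
        rw [Nat.odd_iff] at ho
        omega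
      · rw [e2]; exact h3
    · refine ⟨a, b + 1, le_rfl, by omega, by omega, le_rfl, ?_, ?_⟩
      · rw [Nat.even_iff]
        rw [Nat.odd_iff] at ho
        omega
      · rw [e3]; linarith

lemma count_fibre (S : Finset (ℕ × ℕ)) (C : ℕ) (f : ℕ × ℕ → ℕ × ℤ) (α β : ℕ × ℤ → ℤ)
    (h : ∀ p ∈ S, |(p.1 : ℤ) - α (f p)| ≤ C ∧ |(p.2 : ℤ) - β (f p)| ≤ C) :
    S.card ≤ (2 * C + 1) ^ 2 * (S.image f).card := by
  apply Finset.card_le_mul_card_image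
  intro q _
  have h1 : (S.filter (fun p => f p = q)).card ≤
      (Icc (α q - C) (α q + C) ×ˢ Icc (β q - C) (β q + C)).card := by
    apply card_le_card_of_injOn (fun p => ((p.1 : ℤ), (p.2 : ℤ)))
    · intro p hp
      rw [mem_coe, mem_filter] at hp
      obtain ⟨hp1, hp2⟩ := hp
      have h2 := h p hp1
      rw [hp2, abs_le, abs_le] at h2
      rw [mem_coe, mem_product, mem_Icc, mem_Icc]
      simp only
      omega
    · intro p _ p' _ hpp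
      simp only [Prod.mk.injEq, Nat.cast_inj] at hpp
      exact Prod.ext hpp.1 hpp.2
  refine h1.trans (le_of_eq ?_)
  rw [card_product, Int.card_Icc, Int.card_Icc]
  have e1 : (α q + C + 1 - (α q - C)).toNat = 2 * C + 1 := by omega
  have e2 : (β q + C + 1 - (β q - C)).toNat = 2 * C + 1 := by omega
  rw [e1, e2, sq]

end MPcc0Tri
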