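import Pool.Agent.Lib.MP_cc0c1a_nt.Tri.Seq

set_option autoImplicit false

open Finset
open scoped Classical

namespace MPcc0Tri

/-- A family of discrete triangles of one orientation. The triangle `i` consists of the cells
`(a, b)` with `s i ≤ b` and `ρ i + θ b < a ≤ L i`. -/
structure Faces (ι : Type) where
  I : Finset ι
  L : ι → ℕ
  s : ι → ℕ
  ρ : ι → ℝ

variable {ι : Type}

/-- The triangle meets the row `b`. -/
def Faces.Alive (F : Faces ι) (θ : ℝ) (i : ι) (b : ℕ) : Prop :=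
  F.s i ≤ b ∧ F.ρ i + θ * b < F.L i

/-- The cell `(a, b)` lies in the triangle. -/
def Faces.Cov (F : Faces ι) (θ : ℝ) (i : ι) (a b : ℕ) : Prop :=
  F.s i ≤ b ∧ F.ρ i + θ * b < a ∧ a ≤ F.L i

/-- The life (height) of the triangle. -/
noncomputable def Faces.lam (F : Faces ι) (θ : ℝ) (i : ι) : ℝ :=
  ((F.L i : ℝ) - F.ρ i) / θ - F.s i

/-- The triangles are disjoint and lie in the half plane `0 < a`. -/
structure Faces.Ok (F : Faces ι) (θ : ℝ) : Prop where
  disj : ∀ i ∈ F.I, ∀ j ∈ F.I, i ≠ j → ∀ b, F.Alive θ i b → F.Alive θ j b →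
    (F.L i : ℝ) ≤ F.ρ j + θ * b ∨ (F.L j : ℝ) ≤ F.ρ i + θ * b
  nonneg : ∀ i ∈ F.I, ∀ b, F.Alive θ i b → 0 ≤ F.ρ i + θ * b

/-- The triangles of life at least `w`. -/
noncomputable def Faces.big (F : Faces ι) (θ w : ℝ) : Finset ι := F.I.filter (fun i => w ≤ F.lam θ i)

/-- The gap cells in row `b` to the left of the column `L0`, at distance at most `θ w`. -/
noncomputable def Faces.VG (F : Faces ι) (θ w : ℝ) (L0 b : ℕ) : Finset ℕ :=
  (Ioc L0 (L0 + ⌊θ * w⌋₊)).filter (fun a => ∀ j ∈ F.big θ w, F.Alive θ j b → L0 < F.L j →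
    (a : ℝ) ≤ F.ρ j + θ * b)

lemma Faces.alive_iff_lam (F : Faces ι) {θ : ℝ} (hθ : 0 < θ) (i : ι) (b : ℕ) :
    F.Alive θ i b ↔ F.s i ≤ b ∧ (b : ℝ) < F.s i + F.lam θ i := by
  unfold Faces.Alive Faces.lam
  have h : (F.ρ i + θ * b < F.L i) ↔ ((b : ℝ) < F.s i + (((F.L i : ℝ) - F.ρ i) / θ - F.s i)) := by
    rw [show (F.s i : ℝ) + (((F.L i : ℝ) - F.ρ i) / θ - F.s i) = ((F.L i : ℝ) - F.ρ i) / θ by ring,
      lt_div_iff₀ hθ]
    constructor <;> intro h <;> linarith
  rw [h]

/-- The gap cells to the left of the column `L0` during `n` rows. -/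
theorem Faces.gap (F : Faces ι) {θ w : ℝ} (hθ : 0 < θ) (hw : 0 ≤ w) (hF : F.Ok θ) (L0 s0 n : ℕ)
    (hbase : ∀ j ∈ F.big θ w, ∀ b, s0 ≤ b → b < s0 + n → F.Alive θ j b → L0 < F.L j →
      (L0 : ℝ) ≤ F.ρ j + θ * b) :
    θ * (n * w / 2 - w ^ 2 / 4) - (θ + 1) * n ≤
      ∑ b ∈ range n, ((F.VG θ w L0 (s0 + b)).card : ℝ) := by
  set S : ℕ → Finset ι := fun b => (F.big θ w).filter
    (fun j => F.Alive θ j (s0 + b) ∧ L0 < F.L j) with hS
  set g : ℕ → ι → ℝ := fun b j => (F.ρ j + θ * ((s0 + b : ℕ) : ℝ) - L0) / θ with hg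
  set c : ℕ → ℝ := fun b => (insert w ((S b).image (g b))).min' (insert_nonempty _ _) with hc
  have hmemS : ∀ b j, j ∈ S b ↔ j ∈ F.big θ w ∧ F.Alive θ j (s0 + b) ∧ L0 < F.L j := by
    intro b j
    simp [hS]
  have hcw : ∀ b, c b ≤ w := fun b => min'_le _ _ (mem_insert_self _ _)
  have hcg : ∀ b j, j ∈ S b → c b ≤ g b j := fun b j hj =>
    min'_le _ _ (mem_insert_of_mem (mem_image_of_mem _ hj))
  have hcmem : ∀ b, c b = w ∨ ∃ j ∈ S b, c b = g b j := by
    intro b
    have := min'_mem (insert w ((S b).image (g b))) (insert_nonempty _ _)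
    rw [mem_insert, mem_image] at this
    rcases this with h | ⟨j, hj, h⟩
    · exact Or.inl h
    · exact Or.inr ⟨j, hj, h.symm⟩
  have hg0 : ∀ b < n, ∀ j ∈ S b, 0 ≤ g b j := by
    intro b hb j hj
    rw [hmemS] at hj
    have := hbase j hj.1 (s0 + b) (by omega) (by omega) hj.2.1 hj.2.2
    simp only [hg]
    apply div_nonneg _ hθ.le
    linarith
  have hc0 : ∀ b < n, 0 ≤ c b := by
    intro b hb
    rcases hcmem b with h | ⟨j, hj, h⟩
    · rw [h]; exact hw
    · rw [h]; exact hg0 b hb j hj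
  have hglam : ∀ b j, g b j + (F.lam θ j + F.s j - ((s0 + b : ℕ) : ℝ)) =
      ((F.L j : ℝ) - L0) / θ := by
    intro b j
    simp only [hg, Faces.lam]
    field_simp
    ring
  have hgshift : ∀ b b' j, g b' j = g b j + ((b' : ℝ) - b) := by
    intro b b' j
    simp only [hg]
    push_cast
    field_simp
    ring
  set R : ℕ → Prop := fun b => ∃ j ∈ S b, F.s j = s0 + b ∧ c b = g b j with hR
  have key := seq_bound hw c R n hc0 (fun b _ => hcw b) ?_ ?_
  · have hcell : ∀ b, θ * c b - 1 ≤ ((F.VG θ w L0 (s0 + b)).card : ℝ) := by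
      intro b
      have hsub : Ioc L0 (L0 + ⌊θ * c b⌋₊) ⊆ F.VG θ w L0 (s0 + b) := by
        intro a ha
        rw [mem_Ioc] at ha
        unfold Faces.VG
        rw [mem_filter, mem_Ioc]
        rcases le_or_gt 0 (c b) with hcb | hcb
        · have h1 : ⌊θ * c b⌋₊ ≤ ⌊θ * w⌋₊ :=
            Nat.floor_le_floor (mul_le_mul_of_nonneg_left (hcw b) hθ.le)
          refine ⟨⟨ha.1, by omega⟩, fun j hj hal hL => ?_⟩
          have h2 := hcg b j ((hmemS b j).2 ⟨hj, hal, hL⟩)
          have h3 : (a : ℝ) ≤ L0 + θ * c b := by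
            have h4 : ((⌊θ * c b⌋₊ : ℕ) : ℝ) ≤ θ * c b := Nat.floor_le (by positivity)
            have h5 : (a : ℝ) ≤ ((L0 + ⌊θ * c b⌋₊ : ℕ) : ℝ) := by exact_mod_cast ha.2
            push_cast at h5
            linarith
          have h6 : θ * c b ≤ F.ρ j + θ * ((s0 + b : ℕ) : ℝ) - L0 := by
            have := mul_le_mul_of_nonneg_left h2 hθ.le
            simp only [hg] at this
            rwa [mul_div_cancel₀ _ hθ.ne'] at this
          linarith
        · exfalso
          have : ⌊θ * c b⌋₊ = 0 := Nat.floor_of_nonpos (by nlinarith)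
          omega
      have h1 := card_le_card hsub
      rw [Nat.card_Ioc, Nat.add_sub_cancel_left] at h1
      have h2 : θ * c b < ((⌊θ * c b⌋₊ : ℕ) : ℝ) + 1 := Nat.lt_floor_add_one _
      have h3 : ((⌊θ * c b⌋₊ : ℕ) : ℝ) ≤ ((F.VG θ w L0 (s0 + b)).card : ℝ) := by exact_mod_cast h1
      linarith
    have h1 : ∑ b ∈ range n, (θ * c b - 1) ≤ ∑ b ∈ range n, ((F.VG θ w L0 (s0 + b)).card : ℝ) :=
      sum_le_sum fun b _ => hcell b
    rw [sum_sub_distrib, ← mul_sum, sum_const, card_range, nsmul_eq_mul, mul_one] at h1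
    have h2 := mul_le_mul_of_nonneg_left key hθ.le
    nlinarith
  · intro b hb1 hbn hnR
    rcases hcmem b with h | ⟨j, hj, h⟩
    · rw [h]; exact min_le_left _ _
    · refine le_trans (min_le_right _ _) ?_
      rw [h]
      have hj' := (hmemS b j).1 hj
      have hsj : F.s j ≠ s0 + b := fun hs => hnR ⟨j, hj, hs, h⟩
      have hjS : j ∈ S (b - 1) := by
        rw [hmemS]
        refine ⟨hj'.1, ⟨?_, ?_⟩, hj'.2.2⟩
        · have := hj'.2.1.1
          omega
        · have h2 := hj'.2.1.2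
          have h3 : ((s0 + (b - 1) : ℕ) : ℝ) ≤ ((s0 + b : ℕ) : ℝ) := by
            exact_mod_cast (by omega : s0 + (b - 1) ≤ s0 + b)
          nlinarith
      have h2 := hcg (b - 1) j hjS
      have h3 := hgshift (b - 1) b j
      have h4 : ((b - 1 : ℕ) : ℝ) = (b : ℝ) - 1 := by
        rw [Nat.cast_sub hb1]; norm_num
      rw [h4] at h3
      linarith
  · intro τ τ' hτ1 hττ' hτ'n hRτ hRτ'
    obtain ⟨j, hj, hsj, hcj⟩ := hRτ
    obtain ⟨j', hj', hsj', hcj'⟩ := hRτ'
    have mj := (hmemS τ j).1 hj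
    have mj' := (hmemS τ' j').1 hj'
    have hwj : w ≤ F.lam θ j := (mem_filter.1 mj.1).2
    have hwj' : w ≤ F.lam θ j' := (mem_filter.1 mj'.1).2
    have hne : j ≠ j' := by
      rintro rfl
      omega
    have hge := hgshift τ τ' j
    have hgn : 0 ≤ c τ := hc0 τ (by omega)
    by_cases hal : F.Alive θ j (s0 + τ')
    · have hjS' : j ∈ S τ' := (hmemS τ' j).2 ⟨mj.1, hal, mj.2.2⟩
      have hle := hcg τ' j hjS'
      rcases hF.disj j (mem_filter.1 mj.1).1 j' (mem_filter.1 mj'.1).1 hne _ hal mj'.2.1 with h | h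
      · exfalso
        have h1 : g τ' j < g τ' j' := by
          simp only [hg]
          apply div_lt_div_of_pos_right _ hθ
          have := hal.2
          linarith
        linarith
      · -- `L j' ≤ ρ j + θ b`
        have h1 : g τ' j' + w ≤ g τ' j := by
          have h2 := hglam τ' j'
          rw [hsj'] at h2
          have h3 : ((F.L j' : ℝ) - L0) / θ ≤ g τ' j := by
            simp only [hg]
            apply div_le_div_of_nonneg_right _ hθ.le
            linarith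
          linarith
        have h4 : 0 ≤ g τ' j' := hg0 τ' hτ'n j' hj'
        rw [hge, ← hcj] at h1
        linarith
    · rw [F.alive_iff_lam hθ] at hal
      have h1 : (F.s j : ℝ) + F.lam θ j ≤ ((s0 + τ' : ℕ) : ℝ) := by
        by_contra hcon
        push Not at hcon
        exact hal ⟨by omega, hcon⟩
      rw [hsj] at h1
      push_cast at h1
      linarith

end MPcc0Tri
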