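import Mathlib

set_option autoImplicit false

open Finset

namespace MPcc0Tri

lemma geom_closed (r : ℝ) (hr : r ≠ 1) (m : ℕ) :
    ∑ k ∈ range (m + 1), r ^ k = (r * r ^ m - 1) / (r - 1) := by
  rw [geom_sum_eq hr, pow_succ, mul_comm]

/-- The sum of the weights. -/
lemma weights_le (n : ℕ) : ∑ k ∈ range n, (((13 / 12 : ℝ) ^ k) ^ 3)⁻¹ ≤ 2197 / 469 := by
  have h : ∀ k : ℕ, (((13 / 12 : ℝ) ^ k) ^ 3)⁻¹ = (1728 / 2197 : ℝ) ^ k := by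
    intro k
    rw [← pow_mul, mul_comm k 3, pow_mul, ← inv_pow]
    norm_num
  simp only [h]
  have h1 : ∑ k ∈ range n, (1728 / 2197 : ℝ) ^ k = ((1728 / 2197 : ℝ) ^ n - 1) / (1728 / 2197 - 1) :=
    geom_sum_eq (by norm_num) n
  rw [h1]
  have h2 : (0 : ℝ) < (1728 / 2197 : ℝ) ^ n := by positivity
  rw [div_le_iff_of_neg (by norm_num)]
  linarith

/-- The sum of the weights of the large scales. -/
lemma weights_tail (m K : ℕ) : ∑ k ∈ Ico (m + 1) (K + 1), (((13 / 12 : ℝ) ^ k) ^ 3)⁻¹ ≤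
    (((13 / 12 : ℝ) ^ m) ^ 3)⁻¹ * (1728 / 469) := by
  rw [Finset.sum_Ico_eq_sum_range]
  have h : ∀ k : ℕ, (((13 / 12 : ℝ) ^ (m + 1 + k)) ^ 3)⁻¹ =
      ((((13 / 12 : ℝ) ^ m) ^ 3)⁻¹ * (1728 / 2197)) * (((13 / 12 : ℝ) ^ k) ^ 3)⁻¹ := by
    intro k
    rw [pow_add, pow_add, mul_pow, mul_pow, mul_inv, mul_inv]
    norm_num
  simp only [h]
  rw [← mul_sum]
  have h1 := weights_le (K + 1 - (m + 1))
  have h2 : 0 < (((13 / 12 : ℝ) ^ m) ^ 3)⁻¹ * (1728 / 2197) := by positivity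
  calc _ ≤ ((((13 / 12 : ℝ) ^ m) ^ 3)⁻¹ * (1728 / 2197)) * (2197 / 469) :=
        mul_le_mul_of_nonneg_left h1 h2.le
    _ = _ := by ring

/-- The key numerical inequality. -/
lemma num_ineq {θ W x y : ℝ} (hθ : 0 < θ) (hW : 0 < W) (hx : 0 < x) (hy1 : 1 ≤ y)
    (hy2 : y ≤ (13 / 12) ^ 5) (hx2 : 50 ≤ x ^ 2) (h1 : 50 * (θ + 1) ≤ θ * W * x ^ 2)
    (h2 : 50 * (θ + 2) ≤ θ * W * x ^ 5) :
    (θ * (y * W * x ^ 5) ^ 2 / 2 + (θ + 2) * (y * W * x ^ 5)) * ((x ^ 3)⁻¹ * (1728 / 469)) ≤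
      θ * ((y * W * x ^ 5) * W / 2 * (((13 / 12) ^ 2 * x ^ 2 - 1) / ((13 / 12) ^ 2 - 1)) -
        W ^ 2 / 4 * (((13 / 12) ^ 7 * x ^ 7 - 1) / ((13 / 12) ^ 7 - 1))) -
        (θ + 1) * (y * W * x ^ 5) * (2197 / 469) := by
  set P := θ * W ^ 2 * x ^ 7 with hP
  have hP0 : 0 < P := by positivity
  have hy0 : 0 < y := by linarith
  have e1 : θ * (y * W * x ^ 5) ^ 2 * (x ^ 3)⁻¹ = y ^ 2 * P := by
    rw [hP]; field_simp
  have e2 : (θ + 2) * (y * W * x ^ 5) * (x ^ 3)⁻¹ ≤ y * P / 50 := by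
    have : (θ + 2) * (y * W * x ^ 5) * (x ^ 3)⁻¹ = (θ + 2) * y * W * x ^ 2 := by
      field_simp
    rw [this, hP]
    have h3 : 0 < y * W * x ^ 2 := by positivity
    nlinarith [mul_le_mul_of_nonneg_right h2 h3.le]
  have e3 : (θ + 1) * (y * W * x ^ 5) ≤ y * P / 50 := by
    rw [hP]
    have h3 : 0 < y * W * x ^ 5 := by positivity
    nlinarith [mul_le_mul_of_nonneg_right h1 h3.le]
  have e4 : θ * ((y * W * x ^ 5) * W) * x ^ 2 = y * P := by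
    rw [hP]; ring
  have e5 : θ * ((y * W * x ^ 5) * W) ≤ y * P / 50 := by
    rw [← e4]
    have h3 : 0 < θ * ((y * W * x ^ 5) * W) := by positivity
    nlinarith [mul_le_mul_of_nonneg_left hx2 h3.le]
  have e6 : 0 < θ * W ^ 2 := by positivity
  have key : y ^ 2 * P / 2 * (1728 / 469) + y * P / 50 * (1728 / 469) ≤
      (y * P * (13 / 12) ^ 2 - y * P / 50) / 2 / ((13 / 12) ^ 2 - 1) -
        P / 4 * (13 / 12) ^ 7 / ((13 / 12) ^ 7 - 1) - y * P / 50 * (2197 / 469) := by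
    have h3 : 0 ≤ (y - 1) * ((13 / 12) ^ 5 - y) * P :=
      mul_nonneg (mul_nonneg (by linarith) (by linarith)) hP0.le
    have h4 : 0 ≤ (y - 1) * P := mul_nonneg (by linarith) hP0.le
    have h5 : 0 ≤ ((13 / 12) ^ 5 - y) * P := mul_nonneg (by linarith) hP0.le
    norm_num at h3 h5 ⊢
    nlinarith
  have l1 : (θ * (y * W * x ^ 5) ^ 2 / 2 + (θ + 2) * (y * W * x ^ 5)) * ((x ^ 3)⁻¹ * (1728 / 469)) =
      (θ * (y * W * x ^ 5) ^ 2 * (x ^ 3)⁻¹) / 2 * (1728 / 469) +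
        ((θ + 2) * (y * W * x ^ 5) * (x ^ 3)⁻¹) * (1728 / 469) := by ring
  rw [l1, e1]
  have l2 : θ * ((y * W * x ^ 5) * W / 2 * (((13 / 12) ^ 2 * x ^ 2 - 1) / ((13 / 12) ^ 2 - 1)) -
        W ^ 2 / 4 * (((13 / 12) ^ 7 * x ^ 7 - 1) / ((13 / 12) ^ 7 - 1))) =
      ((θ * ((y * W * x ^ 5) * W) * x ^ 2) * (13 / 12) ^ 2 - θ * ((y * W * x ^ 5) * W)) / 2 /
        ((13 / 12) ^ 2 - 1) - P / 4 * (13 / 12) ^ 7 / ((13 / 12) ^ 7 - 1) +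
        (θ * W ^ 2) / 4 / ((13 / 12) ^ 7 - 1) := by
    rw [hP]
    ring
  rw [l2, e4]
  have l3 : 0 ≤ (θ * W ^ 2) / 4 / ((13 / 12 : ℝ) ^ 7 - 1) := by
    have : (0 : ℝ) < (13 / 12 : ℝ) ^ 7 - 1 := by norm_num
    positivity
  have l4 : (y * P * (13 / 12) ^ 2 - y * P / 50) / 2 / ((13 / 12) ^ 2 - 1) ≤
      (y * P * (13 / 12) ^ 2 - θ * ((y * W * x ^ 5) * W)) / 2 / ((13 / 12) ^ 2 - 1) := by
    have : (0 : ℝ) < (13 / 12 : ℝ) ^ 2 - 1 := by norm_num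
    gcongr
  linarith

end MPcc0Tri
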