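import Pool.Agent.Lib.MP_cc0c1a_nt.Tri.Gap

set_option autoImplicit false

open Finset
open scoped Classical

namespace MPcc0Tri

variable {ι : Type}

/-- The cells of the region `0 < a ≤ A`, `b < H`. -/
def reg (A H : ℕ) : Finset (ℕ × ℕ) := Ioc 0 A ×ˢ range H

/-- The cells of the region which are not covered by triangles of life at least `w`. -/
noncomputable def Faces.Unc (F : Faces ι) (θ w : ℝ) (A H : ℕ) : Finset (ℕ × ℕ) :=
  (reg A H).filter (fun p => ∀ i ∈ F.big θ w, ¬ F.Cov θ i p.1 p.2)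

/-- The big triangles well inside the region. -/
noncomputable def Faces.Ins (F : Faces ι) (θ w : ℝ) (A H : ℕ) : Finset ι :=
  (F.big θ w).filter (fun i => (F.s i : ℝ) + F.lam θ i + 1 ≤ H ∧ (F.L i : ℝ) + θ * w ≤ A)

lemma Faces.vg_uncov (F : Faces ι) {θ w : ℝ} {L0 b a : ℕ} (ha : a ∈ F.VG θ w L0 b) :
    ∀ j ∈ F.big θ w, ¬ F.Cov θ j a b := by
  intro j hj hcov
  unfold Faces.VG at ha
  rw [mem_filter, mem_Ioc] at ha
  have h1 : L0 < F.L j := lt_of_lt_of_le ha.1.1 hcov.2.2
  have h2 : F.Alive θ j b := ⟨hcov.1, lt_of_lt_of_le hcov.2.1 (by exact_mod_cast hcov.2.2)⟩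
  have h3 := ha.2 j hj h2 h1
  have := hcov.2.1
  linarith

/-- The lower bound for the number of uncovered cells at one scale. -/
theorem Faces.scale_lower (F : Faces ι) {θ w : ℝ} (hθ : 0 < θ) (hw : 0 ≤ w)
    (hwθ : 2 * (θ + 1) ≤ θ * w) (hF : F.Ok θ) (A H : ℕ) (hA : θ * w ≤ A) :
    (θ * (H * w / 2 - w ^ 2 / 4) - (θ + 1) * H) +
      ∑ i ∈ F.Ins θ w A H, (θ * (F.lam θ i * w / 2 - w ^ 2 / 4) - (θ + 1) * F.lam θ i) ≤
      ((F.Unc θ w A H).card : ℝ) := by
  -- the cells attached to a base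
  set W : Option ι → Finset (ℕ × ℕ) := fun o => match o with
    | none => ((range H).sigma (fun b => F.VG θ w 0 (0 + b))).image (fun p => (p.2, p.1))
    | some i => ((range ⌈F.lam θ i⌉₊).sigma (fun b => F.VG θ w (F.L i) (F.s i + b))).image
        (fun p => (p.2, F.s i + p.1)) with hW
  have hcardN : (W none).card = ∑ b ∈ range H, (F.VG θ w 0 (0 + b)).card := by
    simp only [hW]
    rw [card_image_of_injective, card_sigma]
    intro p q hpq
    obtain ⟨p1, p2⟩ := p
    obtain ⟨q1, q2⟩ := q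
    simp only [Prod.mk.injEq] at hpq
    obtain ⟨h1, h2⟩ := hpq
    subst h1; subst h2; rfl
  have hcardS : ∀ i, (W (some i)).card =
      ∑ b ∈ range ⌈F.lam θ i⌉₊, (F.VG θ w (F.L i) (F.s i + b)).card := by
    intro i
    simp only [hW]
    rw [card_image_of_injective, card_sigma]
    intro p q hpq
    obtain ⟨p1, p2⟩ := p
    obtain ⟨q1, q2⟩ := q
    simp only [Prod.mk.injEq] at hpq
    obtain ⟨h1, h2⟩ := hpq
    have h3 : p1 = q1 := by omega
    subst h1; subst h3; rfl
  -- membership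
  have hmemN : ∀ a b, (a, b) ∈ W none → b < H ∧ a ∈ F.VG θ w 0 b := by
    intro a b h
    simp only [hW, mem_image, mem_sigma, mem_range] at h
    obtain ⟨⟨p1, p2⟩, ⟨h1, h2⟩, h3⟩ := h
    simp only [Prod.mk.injEq] at h3
    obtain ⟨h4, h5⟩ := h3
    subst h4; subst h5
    simp only [zero_add] at h2
    exact ⟨h1, h2⟩
  have hmemS : ∀ i a b, (a, b) ∈ W (some i) → F.s i ≤ b ∧ (b : ℝ) < F.s i + F.lam θ i ∧
      a ∈ F.VG θ w (F.L i) b := by
    intro i a b h
    simp only [hW, mem_image, mem_sigma, mem_range] at h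
    obtain ⟨⟨p1, p2⟩, ⟨h1, h2⟩, h3⟩ := h
    simp only [Prod.mk.injEq] at h3
    obtain ⟨h4, h5⟩ := h3
    subst h4; subst h5
    refine ⟨by omega, ?_, h2⟩
    have := Nat.lt_ceil.1 h1
    push_cast
    linarith
  have hcol : ∀ L0 a b, a ∈ F.VG θ w L0 b → L0 < a ∧ (a : ℝ) ≤ L0 + θ * w := by
    intro L0 a b h
    unfold Faces.VG at h
    rw [mem_filter, mem_Ioc] at h
    refine ⟨h.1.1, ?_⟩
    have h1 : ((⌊θ * w⌋₊ : ℕ) : ℝ) ≤ θ * w := Nat.floor_le (by positivity)
    have h2 : (a : ℝ) ≤ ((L0 + ⌊θ * w⌋₊ : ℕ) : ℝ) := by exact_mod_cast h.1.2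
    push_cast at h2
    linarith
  have hvg : ∀ L0 a b, a ∈ F.VG θ w L0 b → ∀ j ∈ F.big θ w, F.Alive θ j b → L0 < F.L j →
      (a : ℝ) ≤ F.ρ j + θ * b := by
    intro L0 a b h
    unfold Faces.VG at h
    rw [mem_filter] at h
    exact h.2
  set J : Finset (Option ι) := insertNone (F.Ins θ w A H) with hJ
  have hInsbig : ∀ i ∈ F.Ins θ w A H, i ∈ F.big θ w := fun i hi => (mem_filter.1 hi).1
  have hLpos : ∀ i ∈ F.big θ w, ∀ b, F.Alive θ i b → 0 < F.L i := by
    intro i hi b hal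
    have h1 := hF.nonneg i (mem_filter.1 hi).1 b hal
    have h2 := hal.2
    have h3 : (0 : ℝ) < F.L i := by linarith
    exact_mod_cast h3
  have hdisj : ∀ o ∈ J, ∀ o' ∈ J, o ≠ o' → Disjoint (W o) (W o') := by
    intro o ho o' ho' hne
    rw [Finset.disjoint_left]
    rintro ⟨a, b⟩ h h'
    cases o with
    | none =>
      cases o' with
      | none => exact hne rfl
      | some i =>
        have hi := hInsbig i (by simpa [hJ] using ho')
        obtain ⟨_, h2⟩ := hmemN a b h
        obtain ⟨h3, h4, h5⟩ := hmemS i a b h'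
        have hal : F.Alive θ i b := (F.alive_iff_lam hθ i b).2 ⟨h3, h4⟩
        have h6 := hvg 0 a b h2 i hi hal (hLpos i hi b hal)
        have h7 := (hcol _ a b h5).1
        have h8 : (F.L i : ℝ) < a := by exact_mod_cast h7
        have := hal.2
        linarith
    | some i =>
      have hi := hInsbig i (by simpa [hJ] using ho)
      obtain ⟨h3, h4, h5⟩ := hmemS i a b h
      have hal : F.Alive θ i b := (F.alive_iff_lam hθ i b).2 ⟨h3, h4⟩
      cases o' with
      | none =>
        obtain ⟨_, h2⟩ := hmemN a b h'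
        have h6 := hvg 0 a b h2 i hi hal (hLpos i hi b hal)
        have h7 := (hcol _ a b h5).1
        have h8 : (F.L i : ℝ) < a := by exact_mod_cast h7
        have := hal.2
        linarith
      | some i' =>
        have hi' := hInsbig i' (by simpa [hJ] using ho')
        obtain ⟨h3', h4', h5'⟩ := hmemS i' a b h'
        have hal' : F.Alive θ i' b := (F.alive_iff_lam hθ i' b).2 ⟨h3', h4'⟩
        have hii' : i ≠ i' := fun hh => hne (by rw [hh])
        rcases Nat.lt_trichotomy (F.L i) (F.L i') with hL | hL | hL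
        · have h6 := hvg _ a b h5 i' hi' hal' hL
          have h7 := (hcol _ a b h5').1
          have h8 : (F.L i' : ℝ) < a := by exact_mod_cast h7
          have := hal'.2
          linarith
        · rcases hF.disj i (mem_filter.1 hi).1 i' (mem_filter.1 hi').1 hii' b hal hal' with h9 | h9
          · have := hal'.2
            rw [hL] at h9
            linarith
          · have := hal.2
            rw [← hL] at h9
            linarith
        · have h6 := hvg _ a b h5' i hi hal hL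
          have h7 := (hcol _ a b h5).1
          have h8 : (F.L i : ℝ) < a := by exact_mod_cast h7
          have := hal.2
          linarith
  have hsub : J.biUnion W ⊆ F.Unc θ w A H := by
    intro p hp
    rw [mem_biUnion] at hp
    obtain ⟨o, ho, hpo⟩ := hp
    obtain ⟨a, b⟩ := p
    unfold Faces.Unc reg
    rw [mem_filter, mem_product, mem_Ioc, mem_range]
    cases o with
    | none =>
      obtain ⟨h1, h2⟩ := hmemN a b hpo
      obtain ⟨h3, h4⟩ := hcol _ a b h2
      refine ⟨⟨⟨h3, ?_⟩, h1⟩, F.vg_uncov h2⟩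
      have : (a : ℝ) ≤ A := by push_cast at h4; linarith
      exact_mod_cast this
    | some i =>
      have hi : i ∈ F.Ins θ w A H := by simpa [hJ] using ho
      obtain ⟨h1, h2, h3⟩ := hmemS i a b hpo
      obtain ⟨h4, h5⟩ := hcol _ a b h3
      have h6 := (mem_filter.1 hi).2
      refine ⟨⟨⟨by simp only; omega, ?_⟩, ?_⟩, F.vg_uncov h3⟩
      · have : (a : ℝ) ≤ A := by linarith [h6.2]
        exact_mod_cast this
      · have : (b : ℝ) < H := by linarith [h6.1]
        exact_mod_cast this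
  have hcard := card_le_card hsub
  rw [card_biUnion hdisj, hJ, sum_insertNone, hcardN] at hcard
  simp only [hcardS] at hcard
  have hN := F.gap hθ hw hF 0 0 H (by
    intro j hj b _ _ hal _
    have := hF.nonneg j (mem_filter.1 hj).1 b hal
    simpa using this)
  have hS : ∀ i ∈ F.Ins θ w A H, θ * (F.lam θ i * w / 2 - w ^ 2 / 4) - (θ + 1) * F.lam θ i ≤
      ∑ b ∈ range ⌈F.lam θ i⌉₊, ((F.VG θ w (F.L i) (F.s i + b)).card : ℝ) := by
    intro i hi
    have hib := hInsbig i hi
    have h1 := F.gap hθ hw hF (F.L i) (F.s i) ⌈F.lam θ i⌉₊ (by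
      intro j hj b hb1 hb2 hal hL
      have hali : F.Alive θ i b := by
        rw [F.alive_iff_lam hθ]
        refine ⟨hb1, ?_⟩
        have h2 : b - F.s i < ⌈F.lam θ i⌉₊ := by omega
        have h3 := Nat.lt_ceil.1 h2
        rw [Nat.cast_sub hb1] at h3
        linarith
      have hij : i ≠ j := by
        rintro rfl
        omega
      rcases hF.disj i (mem_filter.1 hib).1 j (mem_filter.1 hj).1 hij b hali hal with h | h
      · exact h
      · exfalso
        have h4 := hali.2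
        have h5 : (F.L i : ℝ) < F.L j := by exact_mod_cast hL
        linarith)
    refine le_trans ?_ h1
    have h2 : F.lam θ i ≤ ((⌈F.lam θ i⌉₊ : ℕ) : ℝ) := Nat.le_ceil _
    nlinarith
  have hcard' : ((∑ b ∈ range H, (F.VG θ w 0 (0 + b)).card +
      ∑ i ∈ F.Ins θ w A H, ∑ b ∈ range ⌈F.lam θ i⌉₊, (F.VG θ w (F.L i) (F.s i + b)).card : ℕ) : ℝ) ≤
      ((F.Unc θ w A H).card : ℝ) := by exact_mod_cast hcard
  push_cast at hcard'
  refine le_trans (add_le_add ?_ (sum_le_sum hS)) hcard'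
  exact hN

/-- The number of cells of one triangle. -/
theorem Faces.area (F : Faces ι) {θ : ℝ} (hθ : 0 < θ) (A H : ℕ) (i : ι) (hi : 1 ≤ F.lam θ i) :
    (((reg A H).filter (fun p => F.Cov θ i p.1 p.2)).card : ℝ) ≤
      θ * F.lam θ i ^ 2 / 2 + (θ + 2) * F.lam θ i := by
  set n := ⌈F.lam θ i⌉₊ with hn
  have hsub : (reg A H).filter (fun p => F.Cov θ i p.1 p.2) ⊆
      ((range n).sigma (fun r => Ioc (F.L i - ⌊θ * (F.lam θ i - r) + 1⌋₊) (F.L i))).image
        (fun p => (p.2, F.s i + p.1)) := by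
    rintro ⟨a, b⟩ h
    rw [mem_filter] at h
    obtain ⟨hreg, h1, h2, h3⟩ := h
    have ha0 : 0 < a := by
      unfold reg at hreg
      rw [mem_product, mem_Ioc] at hreg
      exact hreg.1.1
    simp only at h1 h2 h3
    have h3' : (a : ℝ) ≤ F.L i := by exact_mod_cast h3
    have hal : F.Alive θ i b := ⟨h1, by linarith⟩
    have hal' := (F.alive_iff_lam hθ i b).1 hal
    rw [mem_image]
    refine ⟨⟨b - F.s i, a⟩, ?_, ?_⟩
    · rw [mem_sigma, mem_range, mem_Ioc]
      refine ⟨?_, ?_, h3⟩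
      · rw [hn, Nat.lt_ceil, Nat.cast_sub h1]
        linarith [hal'.2]
      · simp only
        have h4 : (F.L i : ℝ) - a < θ * (F.lam θ i - ((b - F.s i : ℕ) : ℝ)) := by
          rw [Nat.cast_sub h1]
          unfold Faces.lam
          have : θ * ((((F.L i : ℝ) - F.ρ i) / θ - F.s i) - ((b : ℝ) - F.s i)) =
              (F.L i : ℝ) - F.ρ i - θ * b := by
            field_simp
            ring
          rw [this]
          linarith
        have h5 : F.L i - a < ⌊θ * (F.lam θ i - ((b - F.s i : ℕ) : ℝ)) + 1⌋₊ := by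
          have h6 : ((F.L i - a + 1 : ℕ) : ℝ) ≤ θ * (F.lam θ i - ((b - F.s i : ℕ) : ℝ)) + 1 := by
            rw [Nat.cast_add, Nat.cast_sub h3]
            push_cast
            linarith
          have h7 := Nat.le_floor h6
          omega
        omega
    · simp only [Prod.mk.injEq]
      exact ⟨trivial, by omega⟩
  have h1 := (card_le_card hsub).trans card_image_le
  rw [card_sigma] at h1
  have hlam0 : 0 ≤ F.lam θ i := by linarith
  have hn1 : F.lam θ i ≤ n := Nat.le_ceil _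
  have hn2 : (n : ℝ) < F.lam θ i + 1 := Nat.ceil_lt_add_one hlam0
  have h2 : ∀ r ∈ range n, ((Ioc (F.L i - ⌊θ * (F.lam θ i - r) + 1⌋₊) (F.L i)).card : ℝ) ≤
      θ * (F.lam θ i - r) + 1 := by
    intro r hr
    rw [mem_range, hn, Nat.lt_ceil] at hr
    rw [Nat.card_Ioc]
    have h3 : ((⌊θ * (F.lam θ i - r) + 1⌋₊ : ℕ) : ℝ) ≤ θ * (F.lam θ i - r) + 1 :=
      Nat.floor_le (by nlinarith)
    have h4 : F.L i - (F.L i - ⌊θ * (F.lam θ i - r) + 1⌋₊) ≤ ⌊θ * (F.lam θ i - r) + 1⌋₊ := by omega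
    have h5 : ((F.L i - (F.L i - ⌊θ * (F.lam θ i - r) + 1⌋₊) : ℕ) : ℝ) ≤
        ((⌊θ * (F.lam θ i - r) + 1⌋₊ : ℕ) : ℝ) := by exact_mod_cast h4
    linarith
  have h3 : (((reg A H).filter (fun p => F.Cov θ i p.1 p.2)).card : ℝ) ≤
      ∑ r ∈ range n, (θ * (F.lam θ i - r) + 1) := by
    have h1' : (((reg A H).filter (fun p => F.Cov θ i p.1 p.2)).card : ℝ) ≤
        ((∑ r ∈ range n, (Ioc (F.L i - ⌊θ * (F.lam θ i - r) + 1⌋₊) (F.L i)).card : ℕ) : ℝ) := by
      exact_mod_cast h1
    refine h1'.trans ?_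
    rw [Nat.cast_sum]
    exact sum_le_sum h2
  have h4 : ∑ r ∈ range n, (θ * (F.lam θ i - r) + 1) =
      θ * (n * F.lam θ i - (n : ℝ) * (n - 1) / 2) + n := by
    rw [sum_add_distrib, sum_const, card_range, nsmul_eq_mul, mul_one, ← mul_sum, sum_sub_distrib,
      sum_const, card_range, nsmul_eq_mul]
    congr 3
    have := Finset.sum_range_id_mul_two n
    have h5 : (∑ r ∈ range n, (r : ℝ)) * 2 = (n : ℝ) * (n - 1) := by
      rcases Nat.eq_zero_or_pos n with h0 | h0
      · rw [h0]; simp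
      · have h6 : (((∑ r ∈ range n, r) * 2 : ℕ) : ℝ) = ((n * (n - 1) : ℕ) : ℝ) := by
          exact_mod_cast this
        push_cast [Nat.cast_sub h0] at h6
        exact h6
    linarith
  rw [h4] at h3
  refine h3.trans ?_
  set l := F.lam θ i with hl
  have h6 : (n : ℝ) * l - (n : ℝ) * (n - 1) / 2 ≤ l ^ 2 / 2 + l := by
    nlinarith [mul_nonneg (sub_nonneg.2 hn1) (sub_nonneg.2 hn2.le)]
  nlinarith

/-- Comparison of two scales. -/
theorem Faces.scale_upper (F : Faces ι) {θ w w' : ℝ} (hθ : 0 < θ) (hw' : 1 ≤ w')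
    {A H A' H' : ℕ} (hA : A ≤ A') (hH : H ≤ H') :
    ((F.Unc θ w A H).card : ℝ) ≤ ((F.Unc θ w' A' H').card : ℝ) +
      ∑ i ∈ (F.big θ w').filter (fun i => F.lam θ i < w ∧ ∃ p ∈ reg A H, F.Cov θ i p.1 p.2),
        (θ * F.lam θ i ^ 2 / 2 + (θ + 2) * F.lam θ i) := by
  set D := (F.big θ w').filter (fun i => F.lam θ i < w ∧ ∃ p ∈ reg A H, F.Cov θ i p.1 p.2) with hD
  have hsub : F.Unc θ w A H ⊆ F.Unc θ w' A' H' ∪
      D.biUnion (fun i => (reg A H).filter (fun p => F.Cov θ i p.1 p.2)) := by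
    intro p hp
    unfold Faces.Unc at hp
    rw [mem_filter] at hp
    rw [mem_union, mem_biUnion]
    by_cases h : ∃ i ∈ F.big θ w', F.Cov θ i p.1 p.2
    · right
      obtain ⟨i, hi, hc⟩ := h
      refine ⟨i, ?_, mem_filter.2 ⟨hp.1, hc⟩⟩
      rw [hD, mem_filter]
      refine ⟨hi, ?_, p, hp.1, hc⟩
      by_contra hcon
      push Not at hcon
      exact hp.2 i (mem_filter.2 ⟨(mem_filter.1 hi).1, hcon⟩) hc
    · left
      push Not at h
      unfold Faces.Unc
      rw [mem_filter]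
      refine ⟨?_, h⟩
      have h1 := hp.1
      unfold reg at h1 ⊢
      rw [mem_product, mem_Ioc, mem_range] at h1 ⊢
      omega
  have h1 := (card_le_card hsub).trans ((card_union_le _ _).trans
    (Nat.add_le_add_left card_biUnion_le _))
  have h2 : ((F.Unc θ w A H).card : ℝ) ≤ ((F.Unc θ w' A' H').card : ℝ) +
      ∑ i ∈ D, (((reg A H).filter (fun p => F.Cov θ i p.1 p.2)).card : ℝ) := by exact_mod_cast h1
  refine h2.trans ?_
  gcongr with i hi
  apply F.area hθ
  have h3 := (mem_filter.1 (mem_filter.1 hi).1).2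
  linarith

end MPcc0Tri
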