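import Mathlib

set_option autoImplicit false

open Finset

namespace MPcc0Tri

/-- The potential. -/
noncomputable def Psi (w x : ℝ) : ℝ := if x ≤ w then (x - w / 2) ^ 2 / 2 else w ^ 2 / 8

lemma psi_nonneg (w x : ℝ) : 0 ≤ Psi w x := by
  unfold Psi
  split_ifs <;> positivity

lemma psi_le {w x : ℝ} (hx : 0 ≤ x) : Psi w x ≤ w ^ 2 / 8 := by
  unfold Psi
  split_ifs with h
  · nlinarith
  · exact le_rfl

lemma psi_top {w x : ℝ} (h : w ≤ x) : Psi w x = w ^ 2 / 8 := by
  unfold Psi
  split_ifs with h'
  · have : x = w := le_antisymm h' h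
    rw [this]; ring
  · rfl

lemma psi_step {w x : ℝ} (hw : 0 ≤ w) (hx : 0 ≤ x) :
    Psi w (x + 1) - Psi w x ≤ min w x - (w / 2 - 1) := by
  unfold Psi
  rcases le_total x w with h | h
  · rw [min_eq_right h, if_pos h]
    split_ifs with h'
    · nlinarith
    · push Not at h'
      nlinarith [mul_nonneg hx (sub_nonneg.2 h'.le), mul_nonneg (sub_nonneg.2 h) (sub_nonneg.2 h'.le)]
  · rw [min_eq_left h]
    split_ifs with h1 h2 h2
    · nlinarith
    · linarith
    · have : x = w := le_antisymm h2 h
      subst this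
      nlinarith
    · linarith

/-- The sum over a sequence which increases by one at each step, up to resets which are far apart. -/
lemma seq_bound {w : ℝ} (hw : 0 ≤ w) (c : ℕ → ℝ) (R : ℕ → Prop) (n : ℕ)
    (h0 : ∀ b < n, 0 ≤ c b) (hcw : ∀ b < n, c b ≤ w)
    (h1 : ∀ b, 1 ≤ b → b < n → ¬ R b → min w (c (b - 1) + 1) ≤ c b)
    (h2 : ∀ τ τ', 1 ≤ τ → τ < τ' → τ' < n → R τ → R τ' → w - c τ ≤ (τ' : ℝ) - τ) :
    (n : ℝ) * (w / 2 - 1) - w ^ 2 / 4 ≤ ∑ b ∈ range n, c b := by
  have key : ∀ m, m + 1 ≤ n →
      (∃ X : ℝ, 0 ≤ X ∧ min w X ≤ c m ∧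
        ((m + 1 : ℕ) : ℝ) * (w / 2 - 1) + Psi w (X + 1) - w ^ 2 / 8 ≤ ∑ b ∈ range (m + 1), c b) ∨
      (∃ X : ℝ, 0 ≤ X ∧ min w X ≤ c m ∧ (∃ τ, 1 ≤ τ ∧ τ ≤ m ∧ R τ ∧ X = c τ + ((m : ℝ) - τ)) ∧
        ((m + 1 : ℕ) : ℝ) * (w / 2 - 1) + Psi w (X + 1) - w ^ 2 / 4 ≤
          ∑ b ∈ range (m + 1), c b) := by
    intro m
    induction m with
    | zero =>
      intro hm
      left
      refine ⟨c 0, h0 0 (by omega), min_le_right _ _, ?_⟩
      have := psi_step hw (h0 0 (by omega))
      rw [min_eq_right (hcw 0 (by omega))] at this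
      have h3 := psi_le (w := w) (h0 0 (by omega))
      simp only [zero_add, Nat.cast_one, range_one, sum_singleton]
      linarith
    | succ m ih =>
      intro hm
      have hstep : ∀ X : ℝ, 0 ≤ X → Psi w (X + 1) - Psi w X ≤ min w X - (w / 2 - 1) :=
        fun X hX => psi_step hw hX
      have hc0 := h0 (m + 1) (by omega)
      have hcw' := hcw (m + 1) (by omega)
      have hreset : Psi w (c (m + 1) + 1) ≤ c (m + 1) - (w / 2 - 1) + w ^ 2 / 8 := by
        have h3 := hstep _ hc0
        rw [min_eq_right hcw'] at h3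
        have h4 := psi_le (w := w) hc0
        linarith
      by_cases hR : R (m + 1)
      · right
        refine ⟨c (m + 1), hc0, min_le_right _ _, ⟨m + 1, by omega, le_rfl, hR, by push_cast; ring⟩, ?_⟩
        rcases ih (by omega) with ⟨X, hX0, hXc, hX⟩ | ⟨X, hX0, hXc, ⟨τ, hτ1, hτm, hRτ, hXτ⟩, hX⟩
        · have h3 := psi_nonneg w (X + 1)
          rw [sum_range_succ]
          push_cast at hX ⊢
          linarith
        · have h3 := h2 τ (m + 1) hτ1 (by omega) (by omega) hRτ hR
          have h4 : Psi w (X + 1) = w ^ 2 / 8 := by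
            apply psi_top
            rw [hXτ]
            push_cast at h3
            linarith
          rw [h4] at hX
          rw [sum_range_succ]
          push_cast at hX ⊢
          linarith
      · have h3 := h1 (m + 1) (by omega) (by omega) hR
        rw [Nat.add_sub_cancel] at h3
        rcases ih (by omega) with ⟨X, hX0, hXc, hX⟩ | ⟨X, hX0, hXc, ⟨τ, hτ1, hτm, hRτ, hXτ⟩, hX⟩
        · left
          have h5 : min w (X + 1) ≤ c (m + 1) := by
            refine le_trans ?_ h3
            refine le_min (min_le_left _ _) ?_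
            rcases le_total w X with h | h
            · rw [min_eq_left h] at hXc
              exact le_trans (min_le_left _ _) (by linarith)
            · rw [min_eq_right h] at hXc
              exact le_trans (min_le_right _ _) (by linarith)
          refine ⟨X + 1, by linarith, h5, ?_⟩
          have h4 := hstep (X + 1) (by linarith)
          rw [sum_range_succ]
          push_cast at hX ⊢
          linarith
        · right
          have h5 : min w (X + 1) ≤ c (m + 1) := by
            refine le_trans ?_ h3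
            refine le_min (min_le_left _ _) ?_
            rcases le_total w X with h | h
            · rw [min_eq_left h] at hXc
              exact le_trans (min_le_left _ _) (by linarith)
            · rw [min_eq_right h] at hXc
              exact le_trans (min_le_right _ _) (by linarith)
          refine ⟨X + 1, by linarith, h5, ⟨τ, hτ1, by omega, hRτ, by rw [hXτ]; push_cast; ring⟩, ?_⟩
          have h4 := hstep (X + 1) (by linarith)
          rw [sum_range_succ]
          push_cast at hX ⊢
          linarith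
  rcases Nat.eq_zero_or_pos n with hn | hn
  · subst hn
    simp
    positivity
  · obtain ⟨m, rfl⟩ : ∃ m, n = m + 1 := ⟨n - 1, by omega⟩
    rcases key m le_rfl with ⟨X, _, _, hX⟩ | ⟨X, _, _, _, hX⟩
    · have := psi_nonneg w (X + 1)
      nlinarith [sq_nonneg w]
    · have := psi_nonneg w (X + 1)
      linarith

end MPcc0Tri
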