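import Pool.Agent.Lib.MP_cc0c1a_nt.Tri.Scale
import Pool.Agent.Lib.MP_cc0c1a_nt.Tri.Num

set_option autoImplicit false

open Finset
open scoped Classical

namespace MPcc0Tri

variable {ι : Type}

/-- The lower bound for one face at a scale below its life is nonnegative. -/
lemma low_nonneg {θ w l : ℝ} (hw : 0 ≤ w) (hwθ : 4 * (θ + 1) ≤ θ * w) (hwl : w ≤ l)
    (hθ : 0 < θ) : 0 ≤ θ * (l * w / 2 - w ^ 2 / 4) - (θ + 1) * l := by
  have hl : 0 ≤ l := hw.trans hwl
  nlinarith [mul_nonneg hl (sub_nonneg.2 hwθ), mul_nonneg hθ.le (mul_nonneg hw (sub_nonneg.2 hwl))]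

/-- The total contribution of one face. -/
lemma face_total {θ W l : ℝ} (hθ : 0 < θ) (hW : 0 < W) (hWθ : 4 * (θ + 1) ≤ θ * W)
    (m0 K : ℕ) (hm0 : 50 ≤ ((13 / 12 : ℝ) ^ m0) ^ 2)
    (h1 : 50 * (θ + 1) ≤ θ * W * ((13 / 12 : ℝ) ^ m0) ^ 2)
    (h2 : 50 * (θ + 2) ≤ θ * W * ((13 / 12 : ℝ) ^ m0) ^ 5)
    (hl : W * ((13 / 12 : ℝ) ^ m0) ^ 5 ≤ l)
    (I D : ℕ → Prop) [DecidablePred I] [DecidablePred D]
    (hI : ∀ k ≤ K, I k → W * ((13 / 12 : ℝ) ^ k) ^ 5 ≤ l)
    (hD : ∀ k ≤ K, D k → l < W * ((13 / 12 : ℝ) ^ k) ^ 5)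
    (hDI : ∀ k ≤ K, ∀ m, m < k → D k → W * ((13 / 12 : ℝ) ^ m) ^ 5 ≤ l → I m) :
    0 ≤ ∑ k ∈ range (K + 1), (((13 / 12 : ℝ) ^ k) ^ 3)⁻¹ *
      ((if I k then (θ * (l * (W * ((13 / 12 : ℝ) ^ k) ^ 5) / 2 -
        (W * ((13 / 12 : ℝ) ^ k) ^ 5) ^ 2 / 4) - (θ + 1) * l) else 0) -
       (if D k then (θ * l ^ 2 / 2 + (θ + 2) * l) else 0)) := by
  have hxk : ∀ k : ℕ, (1 : ℝ) ≤ (13 / 12 : ℝ) ^ k := fun k => one_le_pow₀ (by norm_num)
  have hwk : ∀ k : ℕ, W ≤ W * ((13 / 12 : ℝ) ^ k) ^ 5 := fun k => by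
    have := one_le_pow₀ (hxk k) (n := 5)
    nlinarith
  have hl0 : 0 < l := by
    have := hwk m0
    linarith
  have hlow : ∀ k, W * ((13 / 12 : ℝ) ^ k) ^ 5 ≤ l → 0 ≤ θ * (l * (W * ((13 / 12 : ℝ) ^ k) ^ 5) / 2 -
        (W * ((13 / 12 : ℝ) ^ k) ^ 5) ^ 2 / 4) - (θ + 1) * l := by
    intro k hk
    apply low_nonneg (by positivity) _ hk hθ
    have := hwk k
    nlinarith
  have har : 0 ≤ θ * l ^ 2 / 2 + (θ + 2) * l := by positivity
  by_cases hex : ∃ k ≤ K, D k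
  · obtain ⟨k1, hk1, hDk1⟩ := hex
    -- the maximal scale below `l`
    have hmono : ∀ m m' : ℕ, m ≤ m' → W * ((13 / 12 : ℝ) ^ m) ^ 5 ≤ W * ((13 / 12 : ℝ) ^ m') ^ 5 := by
      intro m m' h
      have := pow_le_pow_right₀ (show (1 : ℝ) ≤ 13 / 12 by norm_num) h
      gcongr
    obtain ⟨m, hm, hm'⟩ : ∃ m, W * ((13 / 12 : ℝ) ^ m) ^ 5 ≤ l ∧
        l < W * ((13 / 12 : ℝ) ^ (m + 1)) ^ 5 := by
      have hP : ∃ n, l < W * ((13 / 12 : ℝ) ^ n) ^ 5 := ⟨k1, hD k1 hk1 hDk1⟩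
      have hn := Nat.find_spec hP
      have hn0 : Nat.find hP ≠ 0 := by
        intro h0
        rw [h0] at hn
        have := hwk m0
        simp only [pow_zero, one_pow, mul_one] at hn
        linarith
      refine ⟨Nat.find hP - 1, ?_, ?_⟩
      · have := Nat.find_min hP (m := Nat.find hP - 1) (by omega)
        linarith
      · rwa [Nat.sub_add_cancel (by omega)]
    have hmk1 : m < k1 := by
      by_contra hcon
      push Not at hcon
      have := hmono _ _ hcon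
      have := hD k1 hk1 hDk1
      linarith
    have hm0m : m0 ≤ m := by
      by_contra hcon
      push Not at hcon
      have := hmono (m + 1) m0 (by omega)
      linarith
    have hIk : ∀ k ≤ m, I k := by
      intro k hk
      exact hDI k1 hk1 k (by omega) hDk1 (le_trans (hmono _ _ hk) hm)
    have hDk : ∀ k ≤ m, ¬ D k := by
      intro k hk h
      have := hD k (by omega) h
      have := hmono _ _ hk
      linarith
    rw [range_eq_Ico, ← sum_Ico_consecutive _ (Nat.zero_le (m + 1)) (by omega : m + 1 ≤ K + 1),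
      ← range_eq_Ico]
    have hs1 : ∑ k ∈ range (m + 1), (((13 / 12 : ℝ) ^ k) ^ 3)⁻¹ *
      ((if I k then (θ * (l * (W * ((13 / 12 : ℝ) ^ k) ^ 5) / 2 -
        (W * ((13 / 12 : ℝ) ^ k) ^ 5) ^ 2 / 4) - (θ + 1) * l) else 0) -
       (if D k then (θ * l ^ 2 / 2 + (θ + 2) * l) else 0)) =
       θ * (l * W / 2 * ∑ k ∈ range (m + 1), ((13 / 12 : ℝ) ^ 2) ^ k -
        W ^ 2 / 4 * ∑ k ∈ range (m + 1), ((13 / 12 : ℝ) ^ 7) ^ k) -
        (θ + 1) * l * ∑ k ∈ range (m + 1), (((13 / 12 : ℝ) ^ k) ^ 3)⁻¹ := by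
      rw [mul_sum, mul_sum, ← sum_sub_distrib, mul_sum, mul_sum, ← sum_sub_distrib]
      apply sum_congr rfl
      intro k hk
      rw [mem_range] at hk
      rw [if_pos (hIk k (by omega)), if_neg (hDk k (by omega)), sub_zero, ← pow_mul, ← pow_mul,
        ← pow_mul, ← pow_mul, mul_comm 2 k, mul_comm 7 k, pow_mul, pow_mul, pow_mul, pow_mul]
      field_simp
    have hs2 : -((θ * l ^ 2 / 2 + (θ + 2) * l) *
        ∑ k ∈ Ico (m + 1) (K + 1), (((13 / 12 : ℝ) ^ k) ^ 3)⁻¹) ≤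
        ∑ k ∈ Ico (m + 1) (K + 1), (((13 / 12 : ℝ) ^ k) ^ 3)⁻¹ *
      ((if I k then (θ * (l * (W * ((13 / 12 : ℝ) ^ k) ^ 5) / 2 -
        (W * ((13 / 12 : ℝ) ^ k) ^ 5) ^ 2 / 4) - (θ + 1) * l) else 0) -
       (if D k then (θ * l ^ 2 / 2 + (θ + 2) * l) else 0)) := by
      rw [mul_sum, ← sum_neg_distrib]
      apply sum_le_sum
      intro k hk
      rw [mem_Ico] at hk
      have hu : 0 < (((13 / 12 : ℝ) ^ k) ^ 3)⁻¹ := by positivity
      have h3 : 0 ≤ (if I k then (θ * (l * (W * ((13 / 12 : ℝ) ^ k) ^ 5) / 2 -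
        (W * ((13 / 12 : ℝ) ^ k) ^ 5) ^ 2 / 4) - (θ + 1) * l) else 0) := by
        split_ifs with h
        · exact hlow k (hI k (by omega) h)
        · exact le_rfl
      have h4 : (if D k then (θ * l ^ 2 / 2 + (θ + 2) * l) else 0) ≤
          θ * l ^ 2 / 2 + (θ + 2) * l := by
        split_ifs
        · exact le_rfl
        · exact har
      nlinarith
    have hw1 := weights_le (m + 1)
    have hw2 := weights_tail m K
    rw [hs1]
    rw [geom_closed _ (by norm_num) m, geom_closed _ (by norm_num) m]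
    set x : ℝ := (13 / 12 : ℝ) ^ m with hx
    have hx1 : 1 ≤ x := hxk m
    have hx0 : 0 < x := by linarith
    have hxm0 : (13 / 12 : ℝ) ^ m0 ≤ x := pow_le_pow_right₀ (by norm_num) hm0m
    have hxm0' : 0 < (13 / 12 : ℝ) ^ m0 := by positivity
    obtain ⟨y, hy⟩ : ∃ y, y * W * x ^ 5 = l := ⟨l / (W * x ^ 5), by field_simp⟩
    have hWx : 0 < W * x ^ 5 := by positivity
    have hy1 : 1 ≤ y := by
      by_contra hcon
      push Not at hcon
      nlinarith
    have hy2 : y ≤ (13 / 12) ^ 5 := by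
      by_contra hcon
      push Not at hcon
      have h5 : W * ((13 / 12 : ℝ) ^ (m + 1)) ^ 5 = (13 / 12) ^ 5 * (W * x ^ 5) := by
        rw [pow_succ (13 / 12 : ℝ) m, ← hx]; ring
      rw [h5] at hm'
      nlinarith
    have hn := num_ineq (θ := θ) (W := W) (x := x) (y := y) hθ hW hx0 hy1 hy2
      (hm0.trans (by gcongr)) (h1.trans (by gcongr)) (h2.trans (by gcongr))
    rw [hy] at hn
    have e2 : ((13 / 12 : ℝ) ^ 2) ^ m = x ^ 2 := by rw [hx, ← pow_mul, ← pow_mul, mul_comm]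
    have e7 : ((13 / 12 : ℝ) ^ 7) ^ m = x ^ 7 := by rw [hx, ← pow_mul, ← pow_mul, mul_comm]
    rw [e2, e7]
    have h6 := mul_le_mul_of_nonneg_left hw2 har
    have h7 : 0 ≤ (θ + 1) * l := by positivity
    have h8 := mul_le_mul_of_nonneg_left hw1 h7
    linarith
  · push Not at hex
    apply sum_nonneg
    intro k hk
    rw [mem_range] at hk
    rw [if_neg (hex k (by omega)), sub_zero]
    apply mul_nonneg (by positivity)
    split_ifs with h
    · exact hlow k (hI k (by omega) h)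
    · exact le_rfl

lemma sum_ite_sub {s t : Finset ι} (h : s ⊆ t) (f : ι → ℝ) :
    ∑ i ∈ s, f i = ∑ i ∈ t, (if i ∈ s then f i else 0) := by
  rw [← sum_filter, filter_mem_eq_inter, inter_eq_right.2 h]

lemma final_step {θ W x H N : ℝ} (hθ : 0 < θ) (hW : 0 < W) (hx : 0 < x) (hH : 0 < H)
    (h1 : H / (24 * W) ≤ x ^ 5) (hfin : θ * W * H * x ^ 2 / 8 ≤ 5 * N) :
    θ * W / (40 * (24 * W) ^ (2 / 5 : ℝ)) * H ^ (7 / 5 : ℝ) ≤ N := by
  have h2 : (H / (24 * W)) ^ (2 / 5 : ℝ) ≤ x ^ 2 := by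
    have h3 := Real.rpow_le_rpow (by positivity) h1 (show (0 : ℝ) ≤ 2 / 5 by norm_num)
    refine h3.trans (le_of_eq ?_)
    rw [← Real.rpow_natCast x 5, ← Real.rpow_mul hx.le, ← Real.rpow_natCast x 2]
    norm_num
  rw [Real.div_rpow hH.le (by positivity)] at h2
  have h3 : H ^ (7 / 5 : ℝ) = H * H ^ (2 / 5 : ℝ) := by
    rw [show (7 / 5 : ℝ) = 1 + 2 / 5 by norm_num, Real.rpow_add hH, Real.rpow_one]
  rw [h3]
  have h4 : θ * W / (40 * (24 * W) ^ (2 / 5 : ℝ)) * (H * H ^ (2 / 5 : ℝ)) =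
      θ * W * H / 40 * (H ^ (2 / 5 : ℝ) / (24 * W) ^ (2 / 5 : ℝ)) := by
    field_simp
  rw [h4]
  have h5 : 0 < θ * W * H / 40 := by positivity
  have h6 := mul_le_mul_of_nonneg_left h2 h5.le
  linarith

set_option maxHeartbeats 1000000 in
/-- The main geometric theorem: the cells which are not covered by the triangles of life at least
`w` are at least `c H^(7/5)` in number. -/
theorem Faces.geo {θ : ℝ} (hθ : 0 < θ) : ∃ w : ℝ, 0 < w ∧ ∃ c : ℝ, 0 < c ∧ ∃ H0 : ℕ, ∀ H : ℕ,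
    H0 ≤ H → ∀ {ι : Type} (F : Faces ι), F.Ok θ →
      c * (H : ℝ) ^ (7 / 5 : ℝ) ≤ ((F.Unc θ w ⌊θ * H⌋₊ H).card : ℝ) := by
  obtain ⟨m0, hm0⟩ : ∃ m0 : ℕ, (50 : ℝ) < ((13 / 12 : ℝ) ^ m0) :=
    pow_unbounded_of_one_lt _ (by norm_num)
  set W : ℝ := 100 * (1 + 1 / θ) with hW
  have hW0 : 0 < W := by positivity
  have hWθ : θ * W = 100 * (θ + 1) := by rw [hW]; field_simp
  have hW100 : 100 ≤ W := by
    have : 0 < 1 / θ := by positivity
    rw [hW]; linarith
  set w : ℕ → ℝ := fun k => W * ((13 / 12 : ℝ) ^ k) ^ 5 with hw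
  have hxk : ∀ k : ℕ, (1 : ℝ) ≤ (13 / 12 : ℝ) ^ k := fun k => one_le_pow₀ (by norm_num)
  have hwk : ∀ k : ℕ, W ≤ w k := fun k => by
    have := one_le_pow₀ (hxk k) (n := 5)
    simp only [hw]
    nlinarith
  have hw0 : ∀ k, 0 < w k := fun k => lt_of_lt_of_le hW0 (hwk k)
  have hwmono : ∀ m m' : ℕ, m ≤ m' → w m ≤ w m' := by
    intro m m' h
    have := pow_le_pow_right₀ (show (1 : ℝ) ≤ 13 / 12 by norm_num) h
    simp only [hw]
    gcongr
  have hwsucc : ∀ k, w (k + 1) = (13 / 12) ^ 5 * w k := by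
    intro k
    simp only [hw]
    rw [pow_succ (13 / 12 : ℝ) k]
    ring
  have hwlt : ∀ m k : ℕ, m < k → (13 / 12) ^ 5 * w m ≤ w k := by
    intro m k h
    rw [← hwsucc]
    exact hwmono _ _ h
  have hθw : ∀ k, 100 * (θ + 1) ≤ θ * w k := fun k => by
    rw [← hWθ]
    exact mul_le_mul_of_nonneg_left (hwk k) hθ.le
  refine ⟨w m0, hw0 m0, θ * W / (40 * (24 * W) ^ (2 / 5 : ℝ)), by positivity,
    ⌈16 * W + 16 + 16 / θ⌉₊, ?_⟩
  intro H hH ι F hF
  have hH' : 16 * W + 16 + 16 / θ ≤ H := Nat.ceil_le.1 hH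
  have hθi : 0 < 1 / θ := by positivity
  have hHpos : (0 : ℝ) < H := by
    have : 0 < 16 / θ := by positivity
    linarith
  have hθH : 16 ≤ θ * H := by
    have h1 : 16 / θ ≤ H := by linarith
    rw [div_le_iff₀ hθ] at h1
    linarith
  -- the largest scale
  obtain ⟨K, hK, hK'⟩ : ∃ K, w K ≤ H / 16 ∧ H / 16 < w (K + 1) := by
    have hP : ∃ n, (H : ℝ) / 16 < w n := by
      obtain ⟨n, hn⟩ := pow_unbounded_of_one_lt ((H : ℝ) / 16) (show (1 : ℝ) < 13 / 12 by norm_num)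
      refine ⟨n, lt_of_lt_of_le hn ?_⟩
      have h1 := hxk n
      have h2 : (13 / 12 : ℝ) ^ n ≤ ((13 / 12 : ℝ) ^ n) ^ 5 := le_self_pow₀ h1 (by norm_num)
      simp only [hw]
      nlinarith
    have hn := Nat.find_spec hP
    have hn0 : Nat.find hP ≠ 0 := by
      intro h0
      rw [h0] at hn
      simp only [hw, pow_zero, one_pow, mul_one] at hn
      have : 0 < 16 / θ := by positivity
      linarith
    refine ⟨Nat.find hP - 1, ?_, ?_⟩
    · have := Nat.find_min hP (m := Nat.find hP - 1) (by omega)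
      linarith
    · rwa [Nat.sub_add_cancel (by omega)]
  have hwK : ∀ k ≤ K, 16 * w k ≤ H := fun k hk => by
    have := hwmono k K hk
    linarith
  set Hk : ℕ → ℕ := fun k => ⌊(H : ℝ) - 4 * w k⌋₊ with hHk
  set Ak : ℕ → ℕ := fun k => ⌊θ * ((H : ℝ) - 8 * w k)⌋₊ with hAk
  have hHk1 : ∀ k ≤ K, (Hk k : ℝ) ≤ H - 4 * w k := fun k hk => Nat.floor_le (by
    have := hwK k hk; have := hw0 k; linarith)
  have hHk2 : ∀ k, (H : ℝ) - 4 * w k - 1 < Hk k := fun k => by
    have := Nat.lt_floor_add_one ((H : ℝ) - 4 * w k)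
    simp only [hHk]
    linarith
  have hAk1 : ∀ k ≤ K, (Ak k : ℝ) ≤ θ * (H - 8 * w k) := fun k hk => Nat.floor_le (by
    have := hwK k hk; have := hw0 k
    apply mul_nonneg hθ.le; linarith)
  have hAk2 : ∀ k, θ * ((H : ℝ) - 8 * w k) - 1 < Ak k := fun k => by
    have := Nat.lt_floor_add_one (θ * ((H : ℝ) - 8 * w k))
    simp only [hAk]
    linarith
  have hHle : ∀ k ≤ K, Hk k ≤ H := fun k hk => by
    have h1 := hHk1 k hk
    have h2 := hw0 k
    have h3 : (Hk k : ℝ) ≤ H := by linarith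
    exact_mod_cast h3
  have hAle : ∀ k, Ak k ≤ ⌊θ * H⌋₊ := fun k => by
    apply Nat.floor_le_floor
    have := hw0 k
    nlinarith
  -- the main inequality at one scale
  set N : ℝ := ((F.Unc θ (w m0) ⌊θ * H⌋₊ H).card : ℝ) with hN
  set D : ℕ → Finset ι := fun k => (F.big θ (w m0)).filter
    (fun i => F.lam θ i < w k ∧ ∃ p ∈ reg (Ak k) (Hk k), F.Cov θ i p.1 p.2) with hD
  set low : ℕ → ι → ℝ := fun k i =>
    θ * (F.lam θ i * w k / 2 - w k ^ 2 / 4) - (θ + 1) * F.lam θ i with hlow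
  set ar : ι → ℝ := fun i => θ * F.lam θ i ^ 2 / 2 + (θ + 2) * F.lam θ i with har
  set mn : ℕ → ℝ := fun k => θ * (Hk k * w k / 2 - w k ^ 2 / 4) - (θ + 1) * Hk k with hmn
  have hone : ∀ k ≤ K, mn k + ∑ i ∈ F.I, ((if i ∈ F.Ins θ (w k) (Ak k) (Hk k) then low k i else 0) -
      (if i ∈ D k then ar i else 0)) ≤ N := by
    intro k hk
    have h1 := F.scale_lower hθ (hw0 k).le (by have := hθw k; linarith) hF (Ak k) (Hk k) (by
      have h2 := hAk2 k
      have h3 := hwK k hk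
      nlinarith)
    have h2 := F.scale_upper (w := w k) (w' := w m0) hθ (by have := hwk m0; linarith)
      (hAle k) (hHle k hk)
    rw [sum_sub_distrib, ← sum_ite_sub, ← sum_ite_sub]
    · simp only [hmn, hlow, har, hD, hN]
      linarith
    · intro i hi
      exact (mem_filter.1 (mem_filter.1 hi).1).1
    · intro i hi
      exact (mem_filter.1 (mem_filter.1 hi).1).1
  have hu0 : ∀ k : ℕ, 0 < (((13 / 12 : ℝ) ^ k) ^ 3)⁻¹ := fun k => by positivity
  have hsum : ∑ k ∈ range (K + 1), (((13 / 12 : ℝ) ^ k) ^ 3)⁻¹ * (mn k +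
      ∑ i ∈ F.I, ((if i ∈ F.Ins θ (w k) (Ak k) (Hk k) then low k i else 0) -
      (if i ∈ D k then ar i else 0))) ≤ ∑ k ∈ range (K + 1), (((13 / 12 : ℝ) ^ k) ^ 3)⁻¹ * N := by
    apply sum_le_sum
    intro k hk
    rw [mem_range] at hk
    exact mul_le_mul_of_nonneg_left (hone k (by omega)) (hu0 k).le
  -- the contribution of one face
  have hface : ∀ i ∈ F.I, 0 ≤ ∑ k ∈ range (K + 1), (((13 / 12 : ℝ) ^ k) ^ 3)⁻¹ *
      ((if i ∈ F.Ins θ (w k) (Ak k) (Hk k) then low k i else 0) -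
      (if i ∈ D k then ar i else 0)) := by
    intro i hi
    have hInsw : ∀ k, i ∈ F.Ins θ (w k) (Ak k) (Hk k) → w k ≤ F.lam θ i := by
      intro k h
      exact (mem_filter.1 (mem_filter.1 h).1).2
    by_cases hbig : w m0 ≤ F.lam θ i
    · have hθw0 : θ * W * 1 ≤ θ * W * ((13 / 12 : ℝ) ^ m0) ^ 2 := by
        have := one_le_pow₀ (hxk m0) (n := 2)
        gcongr
      have h50 : (50 : ℝ) ≤ ((13 / 12 : ℝ) ^ m0) ^ 2 := by nlinarith
      have h505 : (50 : ℝ) ≤ ((13 / 12 : ℝ) ^ m0) ^ 5 := by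
        have := le_self_pow₀ (hxk m0) (show 5 ≠ 0 by norm_num)
        linarith
      have := face_total (θ := θ) (W := W) (l := F.lam θ i) hθ hW0 (by rw [hWθ]; linarith) m0 K
        h50 (by rw [hWθ] at hθw0 ⊢; linarith) (by rw [hWθ]; nlinarith) hbig
        (fun k => i ∈ F.Ins θ (w k) (Ak k) (Hk k)) (fun k => i ∈ D k)
        (fun k _ h => hInsw k h) (fun k _ h => (mem_filter.1 h).2.1) ?_
      · exact this
      · intro k hk m hmk hDk hm
        obtain ⟨hb, hlt, ⟨⟨a, b⟩, hp, hcov⟩⟩ := mem_filter.1 hDk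
        unfold reg at hp
        rw [mem_product, mem_Ioc, mem_range] at hp
        simp only at hp hcov
        obtain ⟨⟨_, hpa⟩, hpb⟩ := hp
        obtain ⟨c1, c2, c3⟩ := hcov
        have hwmk := hwlt m k hmk
        have hwm := hwk m
        show i ∈ F.Ins θ (w m) (Ak m) (Hk m)
        unfold Faces.Ins Faces.big
        rw [mem_filter, mem_filter]
        refine ⟨⟨hi, hm⟩, ?_, ?_⟩
        · have h1 : ((F.s i + 1 : ℕ) : ℝ) ≤ Hk k := by exact_mod_cast (by omega : F.s i + 1 ≤ Hk k)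
          push_cast at h1
          have h2 := hHk1 k hk
          have h3 := hHk2 m
          norm_num at hwmk
          linarith
        · have h1 : (F.L i : ℝ) = F.ρ i + θ * F.s i + θ * F.lam θ i := by
            unfold Faces.lam
            field_simp
            ring
          have h2 : θ * F.s i ≤ θ * b := by
            have : (F.s i : ℝ) ≤ b := by exact_mod_cast c1
            gcongr
          have h3 : (a : ℝ) ≤ Ak k := by exact_mod_cast hpa
          have h4 := hAk1 k hk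
          have h5 := hAk2 m
          have h6 : θ * F.lam θ i ≤ θ * w k := by gcongr
          have h7 : θ * ((13 / 12) ^ 5 * w m) ≤ θ * w k := by gcongr
          have h8 := hθw m
          norm_num at h7
          nlinarith
    · push Not at hbig
      apply sum_nonneg
      intro k hk
      have hnD : i ∉ D k := by
        intro h
        have := (mem_filter.1 (mem_filter.1 h).1).2
        linarith
      rw [if_neg hnD, sub_zero]
      apply mul_nonneg (hu0 k).le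
      split_ifs with h
      · exact low_nonneg (hw0 k).le (by have := hθw k; linarith) (hInsw k h) hθ
      · exact le_rfl
  have hmn0 : ∀ k ≤ K, 0 ≤ mn k := by
    intro k hk
    simp only [hmn]
    apply low_nonneg (hw0 k).le (by have := hθw k; linarith) _ hθ
    have h1 := hHk2 k
    have h2 := hwK k hk
    have h3 := hwk k
    linarith
  have hmnK : θ * H * w K / 8 ≤ mn K := by
    simp only [hmn]
    have h1 := hHk2 K
    have h2 := hwK K le_rfl
    have h3 := hθw K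
    have h4 := hwk K
    have h5 : (H : ℝ) / 2 ≤ Hk K := by linarith
    have h6 : (0 : ℝ) ≤ Hk K := by positivity
    have h7 : (θ + 1) * Hk K ≤ θ * w K / 100 * Hk K := by
      apply mul_le_mul_of_nonneg_right _ h6
      linarith
    have h8 : θ * w K ^ 2 / 4 ≤ θ * w K * Hk K / 32 := by
      have h9 : w K ≤ Hk K / 8 := by linarith
      have h10 : 0 < θ * w K := mul_pos hθ (hw0 K)
      nlinarith
    have h9 : θ * w K * (H / 2) ≤ θ * w K * Hk K :=
      mul_le_mul_of_nonneg_left h5 (mul_pos hθ (hw0 K)).le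
    nlinarith
  have hfin : (((13 / 12 : ℝ) ^ K) ^ 3)⁻¹ * (θ * H * w K / 8) ≤ 5 * N := by
    have h1 : ∑ k ∈ range (K + 1), (((13 / 12 : ℝ) ^ k) ^ 3)⁻¹ * N ≤ 5 * N := by
      rw [← sum_mul]
      have h2 := weights_le (K + 1)
      have h3 : 0 ≤ N := by positivity
      apply mul_le_mul_of_nonneg_right _ h3
      linarith
    have h2 : ∑ k ∈ range (K + 1), (((13 / 12 : ℝ) ^ k) ^ 3)⁻¹ * (mn k +
        ∑ i ∈ F.I, ((if i ∈ F.Ins θ (w k) (Ak k) (Hk k) then low k i else 0) -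
        (if i ∈ D k then ar i else 0))) =
        ∑ k ∈ range (K + 1), (((13 / 12 : ℝ) ^ k) ^ 3)⁻¹ * mn k +
        ∑ i ∈ F.I, ∑ k ∈ range (K + 1), (((13 / 12 : ℝ) ^ k) ^ 3)⁻¹ *
          ((if i ∈ F.Ins θ (w k) (Ak k) (Hk k) then low k i else 0) -
          (if i ∈ D k then ar i else 0)) := by
      rw [sum_comm, ← sum_add_distrib]
      apply sum_congr rfl
      intro k _
      rw [mul_add, mul_sum]
    have h3 : (((13 / 12 : ℝ) ^ K) ^ 3)⁻¹ * mn K ≤
        ∑ k ∈ range (K + 1), (((13 / 12 : ℝ) ^ k) ^ 3)⁻¹ * mn k := by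
      apply single_le_sum (f := fun k => (((13 / 12 : ℝ) ^ k) ^ 3)⁻¹ * mn k) _
        (mem_range.2 (Nat.lt_succ_self K))
      intro k hk
      rw [mem_range] at hk
      exact mul_nonneg (hu0 k).le (hmn0 k (by omega))
    have h4 := sum_nonneg hface
    have h5 := mul_le_mul_of_nonneg_left hmnK (hu0 K).le
    rw [h2] at hsum
    linarith
  -- the conclusion
  set x : ℝ := (13 / 12 : ℝ) ^ K with hx
  have hx1 : 1 ≤ x := hxk K
  have hx0 : 0 < x := by linarith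
  have e1 : (x ^ 3)⁻¹ * (θ * H * w K / 8) = θ * W * H * x ^ 2 / 8 := by
    simp only [hw, ← hx]
    field_simp
  rw [e1] at hfin
  have h1 : (H : ℝ) / (24 * W) ≤ x ^ 5 := by
    rw [hwsucc] at hK'
    simp only [hw, ← hx] at hK'
    rw [div_le_iff₀ (by positivity)]
    have h2 : 0 < W * x ^ 5 := by positivity
    norm_num at hK'
    nlinarith
  exact final_step hθ hW0 hx0 hHpos h1 hfin

end MPcc0Tri
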